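import Pool.Agent.Helper25.SE.Phi

/-!
# Project SE, block G2: norms of `Φ_S` (3.1)

Here `‖S x‖ ≤ ‖x‖`, `S ^ D = 0`, all degrees are at most `d`; `‖X‖` is the norm of `Ω → A` (largest `‖X z‖`).

* `norm_one_sub_Lop`: `(1 - Lop) X (z) = ∑_{z' ~ z} S X(z') - (deg z - 1) S² X(z)` and `|deg z - 1| ≤ d + 1`.
* `norm_le_FS`: `x - S² x = Lop (Φ x)` pointwise, so `‖x(z) - S² x(z)‖ ≤ (1 + (1 + 2 d)) ‖Φ x‖`; and if
  `y = w - S² w` then `w = ∑_{k < D} S^{2k} y` (as `S^{2D} = 0`), `‖w‖ ≤ D ‖y‖`.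
* `FS_le_norm`: `‖∑_{k<D} (1 - Lop)^k‖ ≤ ∑_{k<D} (1 + 2 d)^k ≤ (2 + 2 d)^D`, `‖x - S² x‖ ≤ 2 ‖x‖`.
* `FS_comp`: let `0 ≤ s, s' ≤ 1`, `X = Φ_{sS} x`, `X' = Φ_{s'S} x`.  Then
  `Lop_{s'S} (X' - X) = (x - s'² S² x) - Lop_{s'S} X = (s² - s'²) S² x + (Lop_{sS} - Lop_{s'S}) X`, and
  `(Lop_{sS} - Lop_{s'S}) X (z) = (s' - s) ∑ S X(z') + (s² - s'²) (deg z - 1) S² X(z)`.  With `|s² - s'²| ≤ 2 |s - s'|`:
  `‖X' - X‖ ≤ (2 + 2 d)^D |s - s'| (2 ‖x‖ + d ‖X‖ + 2 (d + 1) ‖X‖) ≤ cI |s - s'| ‖X‖`, where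
  `cI = (2 + 2 d)^D (2 D (2 + 2 d) + 3 d + 3)` (use `norm_le_FS`).  So `‖X'‖ ≤ 2 ‖X‖` if `cI |s - s'| ≤ 1`.
* `FS_zero`: `Lop G 0 = 1`, `Phi G 0 D = 1` for `D > 0`.
-/

namespace Pool.Agent.Helper25.SE

open Pool.Agent.Helper25.NU
open scoped RealInnerProductSpace

variable {Ω : Type} [Fintype Ω] {A : Type} [NormedAddCommGroup A] [InnerProductSpace ℝ A]
  {G : SimpleGraph Ω} {S : Module.End ℝ A} {D d : ℕ}

/-- The constant of `FS_comp`. -/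
def cI (D d : ℕ) : ℕ := (2 + 2 * d) ^ D * (2 * D * (2 + 2 * d) + 3 * d + 3)

private theorem pow_bound88 {T : Module.End ℝ (Ω → A)} {c : ℝ} (hc : 0 ≤ c)
    (h : ∀ X, ‖T X‖ ≤ c * ‖X‖) (k : ℕ) (X : Ω → A) : ‖(T ^ k) X‖ ≤ c ^ k * ‖X‖ := by
  induction k with
  | zero => simp
  | succ k ih =>
    rw [pow_succ', Module.End.mul_apply]
    calc ‖T ((T ^ k) X)‖ ≤ c * ‖(T ^ k) X‖ := h _
      _ ≤ c * (c ^ k * ‖X‖) := mul_le_mul_of_nonneg_left ih hc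
      _ = c ^ (k + 1) * ‖X‖ := by ring

private theorem geo_bound88 (D d : ℕ) :
    ∑ k ∈ Finset.range D, (1 + 2 * (d : ℝ)) ^ k ≤ (2 + 2 * (d : ℝ)) ^ D := by
  have hd : (0 : ℝ) ≤ d := Nat.cast_nonneg d
  induction D with
  | zero => simp
  | succ D ih =>
    rw [Finset.sum_range_succ]
    have h1 : (1 + 2 * (d : ℝ)) ^ D ≤ (2 + 2 * (d : ℝ)) ^ D :=
      pow_le_pow_left₀ (by positivity) (by linarith) D
    have h2 : (2 + 2 * (d : ℝ)) ^ (D + 1) = (2 + 2 * (d : ℝ)) ^ D * (2 + 2 * d) := pow_succ _ _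
    have h3 : 0 ≤ (2 + 2 * (d : ℝ)) ^ D := by positivity
    rw [h2]
    nlinarith

private theorem deg_abs88 (hd : ∀ z, (nb G z).card ≤ d) (z : Ω) :
    |((nb G z).card : ℝ) - 1| ≤ d + 1 := by
  have h1 : ((nb G z).card : ℝ) ≤ d := by exact_mod_cast hd z
  have h2 : (0 : ℝ) ≤ (nb G z).card := Nat.cast_nonneg _
  rw [abs_le]
  constructor <;> linarith

private theorem sum_nb_le88 (hn : ∀ x, ‖S x‖ ≤ ‖x‖) (hd : ∀ z, (nb G z).card ≤ d) (X : Ω → A)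
    (z : Ω) : ‖∑ z' ∈ nb G z, S (X z')‖ ≤ d * ‖X‖ := by
  have h1 : ((nb G z).card : ℝ) ≤ d := by exact_mod_cast hd z
  calc ‖∑ z' ∈ nb G z, S (X z')‖ ≤ ∑ z' ∈ nb G z, ‖S (X z')‖ := norm_sum_le _ _
    _ ≤ ∑ _z' ∈ nb G z, ‖X‖ :=
        Finset.sum_le_sum fun z' _ => (hn _).trans (norm_le_pi_norm X z')
    _ = (nb G z).card * ‖X‖ := by rw [Finset.sum_const, nsmul_eq_mul]
    _ ≤ d * ‖X‖ := mul_le_mul_of_nonneg_right h1 (norm_nonneg _)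

theorem norm_one_sub_Lop (hn : ∀ x, ‖S x‖ ≤ ‖x‖) (hd : ∀ z, (nb G z).card ≤ d) (X : Ω → A) :
    ‖(1 - Lop G S) X‖ ≤ (1 + 2 * d) * ‖X‖ := by
  rw [pi_norm_le_iff_of_nonneg (by positivity)]
  intro z
  have e : (1 - Lop G S) X z =
      ∑ z' ∈ nb G z, S (X z') - (((nb G z).card : ℝ) - 1) • S (S (X z)) := by
    rw [LinearMap.sub_apply, Module.End.one_apply, Pi.sub_apply, Lop_apply]
    abel
  rw [e]
  have h1 := sum_nb_le88 hn hd X z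
  have h2 : ‖(((nb G z).card : ℝ) - 1) • S (S (X z))‖ ≤ (d + 1) * ‖X‖ := by
    rw [norm_smul, Real.norm_eq_abs]
    exact mul_le_mul (deg_abs88 hd z) (((hn _).trans (hn _)).trans (norm_le_pi_norm X z))
      (norm_nonneg _) (by positivity)
  calc ‖∑ z' ∈ nb G z, S (X z') - (((nb G z).card : ℝ) - 1) • S (S (X z))‖
      ≤ ‖∑ z' ∈ nb G z, S (X z')‖ + ‖(((nb G z).card : ℝ) - 1) • S (S (X z))‖ := norm_sub_le _ _
    _ ≤ d * ‖X‖ + (d + 1) * ‖X‖ := add_le_add h1 h2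
    _ = (1 + 2 * d) * ‖X‖ := by ring

private theorem sum_bound88 (hn : ∀ x, ‖S x‖ ≤ ‖x‖) (hd : ∀ z, (nb G z).card ≤ d) (D : ℕ)
    (Y : Ω → A) :
    ‖(∑ k ∈ Finset.range D, (1 - Lop G S) ^ k) Y‖ ≤ (2 + 2 * d) ^ D * ‖Y‖ := by
  rw [LinearMap.sum_apply]
  calc ‖∑ k ∈ Finset.range D, ((1 - Lop G S) ^ k) Y‖
      ≤ ∑ k ∈ Finset.range D, ‖((1 - Lop G S) ^ k) Y‖ := norm_sum_le _ _
    _ ≤ ∑ k ∈ Finset.range D, (1 + 2 * (d : ℝ)) ^ k * ‖Y‖ :=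
        Finset.sum_le_sum fun k _ =>
          pow_bound88 (by positivity) (norm_one_sub_Lop hn hd) k Y
    _ = (∑ k ∈ Finset.range D, (1 + 2 * (d : ℝ)) ^ k) * ‖Y‖ := by rw [Finset.sum_mul]
    _ ≤ (2 + 2 * d) ^ D * ‖Y‖ :=
        mul_le_mul_of_nonneg_right (geo_bound88 D d) (norm_nonneg _)

private theorem norm_Lop_le88 (hn : ∀ x, ‖S x‖ ≤ ‖x‖) (hd : ∀ z, (nb G z).card ≤ d)
    (X : Ω → A) : ‖Lop G S X‖ ≤ (2 + 2 * d) * ‖X‖ := by
  have e : Lop G S X = X - (1 - Lop G S) X := by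
    rw [LinearMap.sub_apply, Module.End.one_apply]
    abel
  rw [e]
  calc ‖X - (1 - Lop G S) X‖ ≤ ‖X‖ + ‖(1 - Lop G S) X‖ := norm_sub_le _ _
    _ ≤ ‖X‖ + (1 + 2 * d) * ‖X‖ := by
        have := norm_one_sub_Lop hn hd X
        linarith
    _ = (2 + 2 * d) * ‖X‖ := by ring

private theorem norm_pow88 (hn : ∀ x, ‖S x‖ ≤ ‖x‖) (k : ℕ) (a : A) :
    ‖((S * S) ^ k) a‖ ≤ ‖a‖ := by
  induction k with
  | zero => simp
  | succ k ih =>
    rw [pow_succ', Module.End.mul_apply, Module.End.mul_apply]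
    exact ((hn _).trans (hn _)).trans ih

private theorem geom88 (hS : S ^ D = 0) (a : A) :
    a = ∑ k ∈ Finset.range D, ((S * S) ^ k) (a - S (S a)) := by
  have h1 : (∑ k ∈ Finset.range D, (S * S) ^ k) * (1 - S * S) = 1 := by
    rw [geom_sum_mul_neg, ← pow_two, ← pow_mul, mul_comm, pow_mul, hS, zero_pow two_ne_zero,
      sub_zero]
  have h2 := congrArg (fun T : Module.End ℝ A => T a) h1
  simp only [Module.End.mul_apply, Module.End.one_apply, LinearMap.sub_apply,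
    LinearMap.sum_apply] at h2
  exact h2.symm

theorem norm_le_FS (hS : S ^ D = 0) (hn : ∀ x, ‖S x‖ ≤ ‖x‖) (hd : ∀ z, (nb G z).card ≤ d)
    (x : Ω → A) : ‖x‖ ≤ D * (2 + 2 * d) * FS G S D x := by
  have h0 := Lop_Phi (G := G) hS x
  have h1 : ‖fun z => x z - S (S (x z))‖ ≤ (2 + 2 * d) * FS G S D x := by
    rw [← h0, FS_apply]
    exact norm_Lop_le88 hn hd _
  have h2 : 0 ≤ FS G S D x := apply_nonneg _ _
  rw [pi_norm_le_iff_of_nonneg (by positivity)]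
  intro z
  rw [geom88 hS (x z)]
  calc ‖∑ k ∈ Finset.range D, ((S * S) ^ k) (x z - S (S (x z)))‖
      ≤ ∑ k ∈ Finset.range D, ‖((S * S) ^ k) (x z - S (S (x z)))‖ := norm_sum_le _ _
    _ ≤ ∑ _k ∈ Finset.range D, (2 + 2 * d) * FS G S D x :=
        Finset.sum_le_sum fun k _ =>
          ((norm_pow88 hn k _).trans
            (norm_le_pi_norm (fun z => x z - S (S (x z))) z)).trans h1
    _ = D * (2 + 2 * d) * FS G S D x := by
        rw [Finset.sum_const, Finset.card_range, nsmul_eq_mul]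
        ring

theorem FS_le_norm (hn : ∀ x, ‖S x‖ ≤ ‖x‖) (hd : ∀ z, (nb G z).card ≤ d)
    (x : Ω → A) : FS G S D x ≤ 2 * (2 + 2 * d) ^ D * ‖x‖ := by
  have h1 : ‖(1 - pt S * pt S : Module.End ℝ (Ω → A)) x‖ ≤ 2 * ‖x‖ := by
    rw [pi_norm_le_iff_of_nonneg (by positivity)]
    intro z
    have e : (1 - pt S * pt S : Module.End ℝ (Ω → A)) x z = x z - S (S (x z)) := rfl
    rw [e]
    calc ‖x z - S (S (x z))‖ ≤ ‖x z‖ + ‖S (S (x z))‖ := norm_sub_le _ _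
      _ ≤ ‖x z‖ + ‖x z‖ := by
          have := (hn (S (x z))).trans (hn (x z))
          linarith
      _ ≤ 2 * ‖x‖ := by
          have := norm_le_pi_norm x z
          linarith
  rw [FS_apply, Phi, Module.End.mul_apply]
  refine (sum_bound88 hn hd D _).trans ?_
  calc (2 + 2 * (d : ℝ)) ^ D * ‖(1 - pt S * pt S : Module.End ℝ (Ω → A)) x‖
      ≤ (2 + 2 * (d : ℝ)) ^ D * (2 * ‖x‖) := mul_le_mul_of_nonneg_left h1 (by positivity)
    _ = 2 * (2 + 2 * d) ^ D * ‖x‖ := by ring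

theorem FS_comp (hS : S ^ D = 0) (hn : ∀ x, ‖S x‖ ≤ ‖x‖) (hd : ∀ z, (nb G z).card ≤ d)
    {s s' : ℝ} (hs0 : 0 ≤ s) (hs1 : s ≤ 1) (hs0' : 0 ≤ s') (hs1' : s' ≤ 1)
    (hss : cI D d * |s - s'| ≤ 1) (x : Ω → A) :
    FS G (s' • S) D x ≤ 2 * FS G (s • S) D x := by
  have pS : ∀ r : ℝ, (r • S) ^ D = 0 := fun r => by rw [smul_pow, hS, smul_zero]
  have pn : ∀ r : ℝ, 0 ≤ r → r ≤ 1 → ∀ a, ‖(r • S) a‖ ≤ ‖a‖ := by
    intro r h0 h1 a
    rw [LinearMap.smul_apply, norm_smul, Real.norm_eq_abs, abs_of_nonneg h0]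
    calc r * ‖S a‖ ≤ 1 * ‖S a‖ := mul_le_mul_of_nonneg_right h1 (norm_nonneg _)
      _ = ‖S a‖ := one_mul _
      _ ≤ ‖a‖ := hn a
  set X := Phi G (s • S) D x with hX
  set X' := Phi G (s' • S) D x with hX'
  have e1 := Lop_Phi (G := G) (pS s) x
  have e2 := Lop_Phi (G := G) (pS s') x
  rw [← hX] at e1
  rw [← hX'] at e2
  have hxX : ‖x‖ ≤ D * (2 + 2 * d) * ‖X‖ := norm_le_FS (pS s) (pn s hs0 hs1) hd x
  have hsq : |s ^ 2 - s' ^ 2| ≤ 2 * |s - s'| := by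
    have : s ^ 2 - s' ^ 2 = (s + s') * (s - s') := by ring
    rw [this, abs_mul, abs_of_nonneg (by linarith : 0 ≤ s + s')]
    exact mul_le_mul_of_nonneg_right (by linarith) (abs_nonneg _)
  have key : ‖Lop G (s' • S) (X' - X)‖ ≤ |s - s'| * (2 * ‖x‖ + (3 * d + 2) * ‖X‖) := by
    rw [pi_norm_le_iff_of_nonneg (by positivity)]
    intro z
    have f1 : Lop G (s • S) X z = x z - s ^ 2 • S (S (x z)) := by
      rw [e1]
      simp only [LinearMap.smul_apply, map_smul, smul_smul, pow_two]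
    have f2 : Lop G (s' • S) X' z = x z - s' ^ 2 • S (S (x z)) := by
      rw [e2]
      simp only [LinearMap.smul_apply, map_smul, smul_smul, pow_two]
    have f3 : ∀ r : ℝ, Lop G (r • S) X z = X z - r • ∑ z' ∈ nb G z, S (X z') +
        (r ^ 2 * (((nb G z).card : ℝ) - 1)) • S (S (X z)) := by
      intro r
      rw [Lop_apply]
      simp only [LinearMap.smul_apply, map_smul, smul_smul, Finset.smul_sum]
      congr 2
      ring
    have f4 : Lop G (s' • S) (X' - X) z = (s ^ 2 - s' ^ 2) • S (S (x z)) +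
        ((s' - s) • ∑ z' ∈ nb G z, S (X z') +
          ((s ^ 2 - s' ^ 2) * (((nb G z).card : ℝ) - 1)) • S (S (X z))) := by
      have g1 : Lop G (s' • S) (X' - X) z = Lop G (s' • S) X' z - Lop G (s' • S) X z := by
        rw [map_sub, Pi.sub_apply]
      have g2 := f3 s
      rw [f1] at g2
      have g3 := f3 s'
      rw [g1, f2, g3]
      have g4 : x z = X z - s • ∑ z' ∈ nb G z, S (X z') +
        (s ^ 2 * (((nb G z).card : ℝ) - 1)) • S (S (X z)) + s ^ 2 • S (S (x z)) := by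
        rw [← g2]; abel
      have g5 : x z - s' ^ 2 • S (S (x z)) = X z - s • ∑ z' ∈ nb G z, S (X z') +
        (s ^ 2 * (((nb G z).card : ℝ) - 1)) • S (S (X z)) + s ^ 2 • S (S (x z)) -
          s' ^ 2 • S (S (x z)) := by
        conv_lhs => rw [g4]
        rw [← g4]
      rw [g5]
      module
    rw [f4]
    have n0 : ‖S (S (x z))‖ ≤ ‖x‖ := ((hn _).trans (hn _)).trans (norm_le_pi_norm x z)
    have n1 : ‖S (S (X z))‖ ≤ ‖X‖ := ((hn _).trans (hn _)).trans (norm_le_pi_norm X z)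
    have n2 := sum_nb_le88 hn hd X z
    have m0 : ‖(s ^ 2 - s' ^ 2) • S (S (x z))‖ ≤ 2 * |s - s'| * ‖x‖ := by
      rw [norm_smul, Real.norm_eq_abs]
      exact mul_le_mul hsq n0 (norm_nonneg _) (by positivity)
    have m1 : ‖(s' - s) • ∑ z' ∈ nb G z, S (X z')‖ ≤ |s - s'| * (d * ‖X‖) := by
      rw [norm_smul, Real.norm_eq_abs, abs_sub_comm]
      exact mul_le_mul_of_nonneg_left n2 (abs_nonneg _)
    have m2 : ‖((s ^ 2 - s' ^ 2) * (((nb G z).card : ℝ) - 1)) • S (S (X z))‖ ≤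
        2 * |s - s'| * (d + 1) * ‖X‖ := by
      rw [norm_smul, Real.norm_eq_abs, abs_mul]
      exact mul_le_mul (mul_le_mul hsq (deg_abs88 hd z) (abs_nonneg _) (by positivity)) n1
        (norm_nonneg _) (by positivity)
    calc _ ≤ ‖(s ^ 2 - s' ^ 2) • S (S (x z))‖ + ‖(s' - s) • ∑ z' ∈ nb G z, S (X z') +
          ((s ^ 2 - s' ^ 2) * (((nb G z).card : ℝ) - 1)) • S (S (X z))‖ := norm_add_le _ _
      _ ≤ ‖(s ^ 2 - s' ^ 2) • S (S (x z))‖ + (‖(s' - s) • ∑ z' ∈ nb G z, S (X z')‖ +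
          ‖((s ^ 2 - s' ^ 2) * (((nb G z).card : ℝ) - 1)) • S (S (X z))‖) := by
            have := norm_add_le ((s' - s) • ∑ z' ∈ nb G z, S (X z'))
              (((s ^ 2 - s' ^ 2) * (((nb G z).card : ℝ) - 1)) • S (S (X z)))
            linarith
      _ ≤ 2 * |s - s'| * ‖x‖ + (|s - s'| * (d * ‖X‖) + 2 * |s - s'| * (d + 1) * ‖X‖) :=
            add_le_add m0 (add_le_add m1 m2)
      _ = |s - s'| * (2 * ‖x‖ + (3 * d + 2) * ‖X‖) := by ring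
  have e3 : X' - X = (∑ k ∈ Finset.range D, (1 - Lop G (s' • S)) ^ k)
      (Lop G (s' • S) (X' - X)) := by
    rw [← Module.End.mul_apply, sum_mul_Lop (pS s'), Module.End.one_apply]
  have h3 : ‖X' - X‖ ≤ (2 + 2 * d) ^ D * (|s - s'| * (2 * ‖x‖ + (3 * d + 2) * ‖X‖)) := by
    rw [e3]
    exact (sum_bound88 (pn s' hs0' hs1') hd D _).trans
      (mul_le_mul_of_nonneg_left key (by positivity))
  have hd0 : (0 : ℝ) ≤ d := Nat.cast_nonneg d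
  have hX0 : 0 ≤ ‖X‖ := norm_nonneg _
  have h4 : (2 + 2 * (d : ℝ)) ^ D * (|s - s'| * (2 * ‖x‖ + (3 * d + 2) * ‖X‖)) ≤
      (cI D d * |s - s'|) * ‖X‖ := by
    have h5 : 2 * ‖x‖ + (3 * d + 2) * ‖X‖ ≤ (2 * D * (2 + 2 * d) + 3 * d + 3) * ‖X‖ := by
      nlinarith
    have h6 : ((cI D d : ℕ) : ℝ) = (2 + 2 * (d : ℝ)) ^ D * (2 * D * (2 + 2 * d) + 3 * d + 3) := by
      unfold cI
      push_cast
      ring
    rw [h6]
    calc (2 + 2 * (d : ℝ)) ^ D * (|s - s'| * (2 * ‖x‖ + (3 * d + 2) * ‖X‖))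
        ≤ (2 + 2 * (d : ℝ)) ^ D * (|s - s'| * ((2 * D * (2 + 2 * d) + 3 * d + 3) * ‖X‖)) :=
          mul_le_mul_of_nonneg_left (mul_le_mul_of_nonneg_left h5 (abs_nonneg _)) (by positivity)
      _ = _ := by ring
  have h7 : (cI D d * |s - s'|) * ‖X‖ ≤ 1 * ‖X‖ := mul_le_mul_of_nonneg_right hss hX0
  have h8 : ‖X'‖ ≤ ‖X' - X‖ + ‖X‖ := by
    have := norm_add_le (X' - X) X
    simpa using this
  rw [FS_apply, FS_apply, ← hX, ← hX']
  linarith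

theorem FS_zero (hD : 0 < D) (x : Ω → A) : FS G (0 : Module.End ℝ A) D x = ‖x‖ := by
  have h1 : Lop G (0 : Module.End ℝ A) = 1 := by
    ext X z
    simp [Lop]
  have h2 : (pt (0 : Module.End ℝ A) : Module.End ℝ (Ω → A)) = 0 := by
    ext X z
    simp [pt]
  obtain ⟨k, rfl⟩ : ∃ k, D = k + 1 := ⟨D - 1, by omega⟩
  have h3 : Phi G (0 : Module.End ℝ A) (k + 1) = 1 := by
    unfold Phi
    rw [h1, h2, Finset.sum_range_succ']
    simp
  rw [FS_apply, h3, Module.End.one_apply]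

end Pool.Agent.Helper25.SE
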