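import Pool.Agent.Helper25.SE.ChartLoc

/-!
# Project SE, block G5c: existence of charts (3.3)

Claim.  If `G` is connected without cycles of length at most `4 · 3^|R| · (D + 1)` and `R ≠ ∅`, there are `ρ`, `d`, `p` with
`Chart G (ρ + D) d p` and `d z ≤ ρ` on `R`.

Proof.  For `k = 0, 1, 2, ..` let `ρ_k = (3^k - 1)(D + 1)`, so that `ρ_{k+1} = 3 ρ_k + 2 D + 2`.
By induction (on `|C|`, downwards): there are `k < |R|` and `C ⊆ R` non-empty with `R ⊆ ⋃_{c ∈ C} B(c, ρ_k)`, and pairwise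
distances of `C` larger than `2 (ρ_k + D) + 2`.  Start with `C = R`, `k = 0`.  If two points `c ≠ c'` of `C` have
distance at most `2 (ρ_k + D) + 2`, drop `c'`: `B(c', ρ_k) ⊆ B(c, ρ_k + 2 (ρ_k + D) + 2) = B(c, ρ_{k+1})`.
Each step reduces `|C|` by one and increases `k` by one, so `k + |C| ≤ |R|` always.
Then `K = ρ_k + D` satisfies `2 K + 2 ≤ 4 · 3^|R| (D + 1)`, and `exists_chart_of_sep` applies.
-/

namespace Pool.Agent.Helper25.SE

theorem exists_chart {Ω : Type} [Fintype Ω] {G : SimpleGraph Ω} (hG : G.Connected) {D : ℕ}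
    (R : Finset Ω) (hR : R.Nonempty)
    (hg : ∀ (v : Ω) (c : G.Walk v v), c.IsCycle → 4 * 3 ^ R.card * (D + 1) < c.length) :
    ∃ (ρ : ℕ) (d : Ω → ℕ) (p : Ω → Ω), Chart G (ρ + D) d p ∧ ∀ z ∈ R, d z ≤ ρ := by
  sorry

end Pool.Agent.Helper25.SE
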