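import Pool.Agent.Helper25.SE.PathU

/-!
# Project SE, block G5b: the distance to a separated set is a chart

Let `G` be connected, without cycles of length at most `2 K + 2`, `C` a non-empty finite set whose points have pairwise
distances `> 2 K + 2`, and `d z = min_{c ∈ C} dist(c, z)`.  Then there is `p` with `Chart G K d p`.

Proof.  `d` changes by at most `1` along edges.
Key claim: if `d z ≤ K`, and `z₁ ≠ z₂` are neighbours of `z` with `d z₁ ≤ d z`, `d z₂ ≤ d z`, there is a contradiction.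
Let `c₁`, `c₂ ∈ C` with `dist(c_i, z_i) = d z_i`, and `P_i` a shortest path from `z_i` to `c_i` (`exists_walk_length_eq_dist`;
it is a path).  If `c₁ ≠ c₂`, then `dist(c₁, c₂) ≤ 2 K + 2`, a contradiction.  If `c₁ = c₂ = c`: `z` is not on
`P_i`: all vertices of `P_i` other than `z_i` have distance to `c` smaller than `dist(z_i, c) = d z_i ≤ d z ≤ dist(z, c)`, and
`z ≠ z_i`.  So `z :: P₁` and `z :: P₂` (`Walk.cons`) are paths from `z` to `c`, of total length at most
`2 K + 2`, so equal by `path_unique`, so `z₁ = z₂` (second vertices).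
Also: if `d z ≤ K` and `z ~ z₁`, then `d z₁ ≠ d z`: if `d z = 0` then `z, z₁ ∈ C`, contradicting the separation.  If
`d z ≥ 1` then `z` has a neighbour `z₂` with `d z₂ = d z - 1` (first step of a shortest path to `C`), so
`z₁ ≠ z₂` contradicts the key claim.
* `d z = 0`: neighbours have `d ≤ 1` and `d ≠ 0`.
* `1 ≤ d z ≤ K`: let `p z` be the neighbour with `d (p z) = d z - 1`; every other neighbour has `d ≠ d z`, and
  not `d = d z - 1` by the key claim; so `d = d z + 1`.
-/

namespace Pool.Agent.Helper25.SE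

private theorem key40 {Ω : Type} [Fintype Ω] {G : SimpleGraph Ω} (hG : G.Connected) {K : ℕ}
    (hg : ∀ (v : Ω) (c : G.Walk v v), c.IsCycle → 2 * K + 2 < c.length) {C : Finset Ω}
    (hC : C.Nonempty) (hsep : ∀ c ∈ C, ∀ c' ∈ C, c ≠ c' → 2 * K + 2 < G.dist c c')
    {z z1 z2 : Ω} (h1 : G.Adj z z1) (h2 : G.Adj z z2) (hne : z1 ≠ z2)
    (hK : C.inf' hC (fun c => G.dist c z) ≤ K)
    (hd1 : C.inf' hC (fun c => G.dist c z1) ≤ C.inf' hC (fun c => G.dist c z))
    (hd2 : C.inf' hC (fun c => G.dist c z2) ≤ C.inf' hC (fun c => G.dist c z)) : False := by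
  classical
  obtain ⟨c1, hc1, e1⟩ := Finset.exists_mem_eq_inf' hC (fun c => G.dist c z1)
  obtain ⟨c2, hc2, e2⟩ := Finset.exists_mem_eq_inf' hC (fun c => G.dist c z2)
  by_cases hc : c1 = c2
  · subst hc
    have hz : C.inf' hC (fun c => G.dist c z) ≤ G.dist c1 z := Finset.inf'_le _ hc1
    -- a shortest path which avoids `z`
    have main : ∀ w : Ω, G.Adj z w → G.dist c1 w ≤ C.inf' hC (fun c => G.dist c z) →
        ∃ P : G.Walk w c1, P.IsPath ∧ P.length = G.dist c1 w ∧ z ∉ P.support := by
      intro w hw hwd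
      obtain ⟨P, hP, hl⟩ := (hG w c1).exists_path_of_dist
      refine ⟨P, hP, by rw [hl, SimpleGraph.dist_comm], fun hmem => ?_⟩
      have hl2 := congrArg SimpleGraph.Walk.length (P.take_spec hmem)
      rw [SimpleGraph.Walk.length_append] at hl2
      have h3 : G.dist z c1 ≤ (P.dropUntil z hmem).length := SimpleGraph.dist_le _
      have h4 : 0 < (P.takeUntil z hmem).length := by
        rcases Nat.eq_zero_or_pos (P.takeUntil z hmem).length with h | h
        · have := SimpleGraph.Walk.eq_of_length_eq_zero h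
          exact absurd (this ▸ hw) (G.loopless.irrefl _)
        · exact h
      rw [SimpleGraph.dist_comm] at h3
      rw [SimpleGraph.dist_comm] at hl
      omega
    obtain ⟨P1, hP1, l1, s1⟩ := main z1 h1 (e1 ▸ hd1)
    obtain ⟨P2, hP2, l2, s2⟩ := main z2 h2 (e2 ▸ hd2)
    have hQ := path_unique (g := 2 * K + 2) hg (SimpleGraph.Walk.cons h1 P1)
      (SimpleGraph.Walk.cons h2 P2) ((SimpleGraph.Walk.cons_isPath_iff _ _).2 ⟨hP1, s1⟩)
      ((SimpleGraph.Walk.cons_isPath_iff _ _).2 ⟨hP2, s2⟩) (by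
        rw [SimpleGraph.Walk.length_cons, SimpleGraph.Walk.length_cons, l1, l2]
        have := e1 ▸ hd1
        have := e2 ▸ hd2
        omega)
    have h5 := congrArg (fun w => w.getVert 1) hQ
    simp only [SimpleGraph.Walk.getVert_cons_succ, SimpleGraph.Walk.getVert_zero] at h5
    exact hne h5
  · have h3 := hsep c1 hc1 c2 hc2 hc
    have h4 : G.dist c1 c2 ≤ G.dist c1 z1 + G.dist z1 c2 := hG.dist_triangle
    have h5 : G.dist z1 c2 ≤ G.dist z1 z + G.dist z c2 := hG.dist_triangle
    have h6 : G.dist z c2 ≤ G.dist z z2 + G.dist z2 c2 := hG.dist_triangle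
    have h7 : G.dist z1 z = 1 := SimpleGraph.dist_eq_one_iff_adj.2 h1.symm
    have h8 : G.dist z z2 = 1 := SimpleGraph.dist_eq_one_iff_adj.2 h2
    have h9 : G.dist z2 c2 = G.dist c2 z2 := SimpleGraph.dist_comm
    omega

theorem exists_chart_of_sep {Ω : Type} [Fintype Ω] {G : SimpleGraph Ω} (hG : G.Connected) {K : ℕ}
    (hg : ∀ (v : Ω) (c : G.Walk v v), c.IsCycle → 2 * K + 2 < c.length) {C : Finset Ω}
    (hC : C.Nonempty) (hsep : ∀ c ∈ C, ∀ c' ∈ C, c ≠ c' → 2 * K + 2 < G.dist c c') :
    ∃ (p : Ω → Ω), Chart G K (fun z => C.inf' hC (fun c => G.dist c z)) p := by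
  classical
  have lip : ∀ z z', G.Adj z z' → C.inf' hC (fun c => G.dist c z') ≤
      C.inf' hC (fun c => G.dist c z) + 1 := by
    intro z z' h
    obtain ⟨c, hc, e⟩ := Finset.exists_mem_eq_inf' hC (fun c => G.dist c z)
    have h1 : C.inf' hC (fun c => G.dist c z') ≤ G.dist c z' := Finset.inf'_le _ hc
    have h2 : G.dist c z' ≤ G.dist c z + G.dist z z' := hG.dist_triangle
    have h3 : G.dist z z' = 1 := SimpleGraph.dist_eq_one_iff_adj.2 h
    omega
  have nb : ∀ z, ∃ w, C.inf' hC (fun c => G.dist c z) ≠ 0 →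
      G.Adj z w ∧ C.inf' hC (fun c => G.dist c w) + 1 = C.inf' hC (fun c => G.dist c z) := by
    intro z
    by_cases h0 : C.inf' hC (fun c => G.dist c z) = 0
    · exact ⟨z, fun h => absurd h0 h⟩
    · obtain ⟨c, hc, e⟩ := Finset.exists_mem_eq_inf' hC (fun c => G.dist c z)
      obtain ⟨P, hP, hl⟩ := (hG z c).exists_path_of_dist
      cases P with
      | nil =>
        exfalso
        rw [SimpleGraph.Walk.length_nil] at hl
        rw [SimpleGraph.dist_comm] at hl
        omega
      | @cons _ w _ hw q =>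
        refine ⟨w, fun _ => ⟨hw, ?_⟩⟩
        rw [SimpleGraph.Walk.length_cons] at hl
        have h1 : G.dist w c ≤ q.length := SimpleGraph.dist_le q
        have h2 : C.inf' hC (fun c => G.dist c w) ≤ G.dist c w := Finset.inf'_le _ hc
        have h3 := lip w z hw.symm
        rw [SimpleGraph.dist_comm] at h1
        rw [SimpleGraph.dist_comm] at hl
        omega
  choose p hp using nb
  refine ⟨p, ?_, ?_, ?_, ?_, lip⟩
  · -- roots
    intro z z' h0 hzz
    have h1 := lip z z' hzz
    by_contra hne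
    have h2 : C.inf' hC (fun c => G.dist c z') = 0 := by omega
    obtain ⟨c, hc, e⟩ := Finset.exists_mem_eq_inf' hC (fun c => G.dist c z)
    obtain ⟨c', hc', e'⟩ := Finset.exists_mem_eq_inf' hC (fun c => G.dist c z')
    have h3 : c = z := (hG.dist_eq_zero_iff).1 (by omega)
    have h4 : c' = z' := (hG.dist_eq_zero_iff).1 (by omega)
    subst h3 h4
    have h5 := hsep _ hc _ hc' hzz.ne
    rw [SimpleGraph.dist_eq_one_iff_adj.2 hzz] at h5
    omega
  · intro z h0 _
    exact (hp z h0).1
  · intro z h0 _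
    exact (hp z h0).2
  · intro z z' h0 hK hzz hne
    have h1 := lip z z' hzz
    obtain ⟨h2, h3⟩ := hp z h0
    by_contra h4
    exact key40 hG hg hC hsep hzz h2 hne hK (by omega) (by omega)

end Pool.Agent.Helper25.SE
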