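import Pool.Agent.Helper25.SE.Defs

/-!
# Project SE, block F0: Hahn-Banach for the `K`-functional and the dual of `ℓ_∞(A)`

* `exists_dual_K`: `K a b t` is a seminorm (`NU.Kn`, with `K_add`, `K_smul`); extend `c z ↦ c K_t(z)` from the
  line of `z` (for example `exists_extension_of_le_sublinear`); `K ≤ a` and `K ≤ t b` are `K_le_a`, `K_le_b`.
* `exists_repr`: `ψ u = ∑_v ψ (Pi.single v (u v))`, and `w ↦ ψ (Pi.single v w)` is a linear functional on `A`,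
  so `⟨·, γ v⟩` (Riesz, `A` finite-dimensional: `InnerProductSpace.toDual`, or `LinearMap.toContinuousLinearMap`).
  With `u v = γ v/‖γ v‖` (and `0` if `γ v = 0`): `‖u‖ ≤ 1`, `ψ u = ∑ ‖γ v‖ ≤ t`.
-/

namespace Pool.Agent.Helper25.SE

open Pool.Agent.Helper25.NU
open scoped RealInnerProductSpace

theorem exists_dual_K {V : Type} [AddCommGroup V] [Module ℝ V] (a b : Seminorm ℝ V) {t : ℝ}
    (ht : 0 ≤ t) (z : V) :
    ∃ ψ : V →ₗ[ℝ] ℝ, ψ z = K a b t z ∧ (∀ u, ψ u ≤ a u) ∧ ∀ u, ψ u ≤ t * b u := by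
  sorry

theorem exists_repr {Y : Type} [Fintype Y] {A : Type} [NormedAddCommGroup A]
    [InnerProductSpace ℝ A] [FiniteDimensional ℝ A] (ψ : (Y → A) →ₗ[ℝ] ℝ) {t : ℝ} (ht : 0 ≤ t)
    (hψ : ∀ u, ψ u ≤ t * ‖u‖) :
    ∃ γ : Y → A, (∀ u, ψ u = ∑ v, ⟪u v, γ v⟫) ∧ ∑ v, ‖γ v‖ ≤ t := by
  sorry

end Pool.Agent.Helper25.SE
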