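import Pool.Agent.Helper25.SE.Forest2
import Pool.Agent.Helper25.SE.HB

/-!
# Project SE, block F3: the bound of the `K`-functional on a forest (2.4)

Claim.  Let `IsX S ξ X`, `t > 0`, `ε > 0`.  There are `ξ', X'` with `IsX S ξ' X'` and `M` with
`‖X v - X' v‖ ≤ M` for all `v` and `∑ ‖E S ξ' v‖ + t M ≤ c₃ √(t H_S(ξ)) + ε`.

Proof.  Let `V = Y → A` (the space of the `X`).  The map `X ↦ ξ` is well defined and linear
(`exists_xi_of_X`; if `IsX S ξ 0` then `ξ = 0`, since `ξ v = S (S (ξ v))` gives `ξ v = 0` by `Sop.norm_le`), so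
`U X = E S ξ` is a linear map `V → V`.  Let `a X = ∑ ‖U X v‖` and `b X = ‖X‖` (norm of `Y → A`, the largest
`‖X v‖`), two seminorms.  It is enough that `K a b t X ≤ c₃ √(t H_S(ξ))`: then take `X'` with
`a X' + t b (X - X') ≤ K + ε`, `M = b (X - X')`.
By `exists_dual_K` there is `ψ` with `ψ X = K a b t X`, `ψ ≤ a`, `ψ ≤ t b`; by `exists_repr`
`ψ u = ∑ ⟨u v, γ v⟩`, `∑ ‖γ v‖ ≤ t`.  Let `E S' β = γ` (`exists_xi` for `S'`) and `IsX S' β X'` (`exists_X`).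
* For every `x : V`: let `E S η = x`, `IsX S η Xη`; by `id1`, `id2`
  `∑ ⟨x v, X' v⟩ = ∑ ⟨Xη v, γ v⟩ = ψ Xη ≤ a Xη = ∑ ‖x v‖`.  With `x = Pi.single v (X' v)` this is
  `‖X' v‖² ≤ ‖X' v‖`, so `‖X' v‖ ≤ 1`.
* `H_{S'}(β) ≤ c₂ (∑ ‖γ v‖) · 1 ≤ c₂ t` by `H_le` for `Sop.symm`.
* `ψ X = ∑ ⟨X v, γ v⟩ = ∑_{roots} ⟨ξ, β⟩ + ∑_{others} ⟨ξ - S S ξ, β⟩` (`id1`)
  `≤ c₁ ∑ √(h_v(ξ)) √(h_v(β)) ≤ c₁ √(H_S(ξ)) √(H_{S'}(β))`, where `h_v(ξ)` are the summands of `H` (`bq_symm`,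
  `Sop.bil`, Cauchy-Schwarz).  So `ψ X ≤ c₁ √(H_S(ξ)) √(c₂ t) ≤ c₁ c₂ √(t H_S(ξ))`.
-/

namespace Pool.Agent.Helper25.SE

open Pool.Agent.Helper25.NU
open scoped RealInnerProductSpace

variable {Y : Type} [Fintype Y] {A : Type} [NormedAddCommGroup A] [InnerProductSpace ℝ A]
  {C₂ C₃ h : ℝ} {S S' : Module.End ℝ A}

omit [Fintype Y] in
/-- `ξ` is determined by `X`. -/
theorem xi_unique15 (F : Forest Y) (H : Sop C₂ C₃ h S S') {ξ ξ' X : Y → A}
    (h1 : F.IsX S ξ X) (h2 : F.IsX S ξ' X) : ξ = ξ' := by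
  funext v
  by_cases hv : F.d v = 0
  · rw [← h1.1 v hv, ← h2.1 v hv]
  · have e : ξ v - S (S (ξ v)) = ξ' v - S (S (ξ' v)) := by
      have e1 := h1.2 v hv
      have e2 := h2.2 v hv
      rw [e1] at e2
      exact add_left_cancel e2
    have e3 : ξ v - ξ' v = S (S (ξ v - ξ' v)) := by
      rw [map_sub, map_sub]
      have : ξ v - ξ' v - (S (S (ξ v)) - S (S (ξ' v))) = 0 := by
        rw [show ξ v - ξ' v - (S (S (ξ v)) - S (S (ξ' v))) =
          (ξ v - S (S (ξ v))) - (ξ' v - S (S (ξ' v))) by abel, e, sub_self]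
      exact sub_eq_zero.1 this
    have e4 : ‖ξ v - ξ' v‖ ≤ (1 - h) * ((1 - h) * ‖ξ v - ξ' v‖) := by
      conv_lhs => rw [e3]
      refine (H.norm_le _).trans ?_
      exact mul_le_mul_of_nonneg_left (H.norm_le _) (by linarith [H.h_le])
    have hp := H.h_pos
    have hl := H.h_le
    have e5 : ‖ξ v - ξ' v‖ = 0 := by
      by_contra hne
      have hpos : 0 < ‖ξ v - ξ' v‖ := lt_of_le_of_ne (norm_nonneg _) (Ne.symm hne)
      nlinarith [mul_pos hp hpos, mul_nonneg (mul_nonneg hp.le (by linarith : 0 ≤ 1 - h)) hpos.le]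
    exact sub_eq_zero.1 (norm_eq_zero.1 e5)

theorem Forest.K_le [FiniteDimensional ℝ A] (F : Forest Y) (H : Sop C₂ C₃ h S S')
    (hC₂ : 0 ≤ C₂) (hC₃ : 0 ≤ C₃) {ξ X : Y → A} (hX : F.IsX S ξ X) {t ε : ℝ} (ht : 0 < t)
    (hε : 0 < ε) :
    ∃ (ξ' X' : Y → A) (M : ℝ), F.IsX S ξ' X' ∧ 0 ≤ M ∧ (∀ v, ‖X v - X' v‖ ≤ M) ∧
      ∑ v, ‖F.E S ξ' v‖ + t * M ≤ c3 C₂ C₃ * √(t * F.H S ξ) + ε := by
  classical
  -- the linear map
  choose xi hxi using fun X : Y → A => F.exists_xi_of_X (S := S) H.surj X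
  have hxu : ∀ {ξ X : Y → A}, F.IsX S ξ X → xi X = ξ := fun h => xi_unique15 F H (hxi _) h
  let U : (Y → A) →ₗ[ℝ] (Y → A) :=
    { toFun := fun X => F.E S (xi X)
      map_add' := fun X X' => by rw [hxu ((hxi X).add (hxi X')), F.E_add]
      map_smul' := fun c X => by rw [hxu ((hxi X).smul c), F.E_smul]; rfl }
  have hU : ∀ X, U X = F.E S (xi X) := fun _ => rfl
  obtain ⟨a, ha⟩ : ∃ a : Seminorm ℝ (Y → A), ∀ X, a X = ∑ v, ‖F.E S (xi X) v‖ :=
    ⟨(sn1 Y A).comp U, fun X => rfl⟩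
  obtain ⟨b, hb⟩ : ∃ b : Seminorm ℝ (Y → A), ∀ X, b X = ‖X‖ := ⟨normSeminorm ℝ (Y → A), fun X => rfl⟩
  have hc1 := c1_ge hC₂
  have hc2 := c2_ge hC₂ hC₃
  -- the main estimate
  have key : K a b t X ≤ c3 C₂ C₃ * √(t * F.H S ξ) := by
    obtain ⟨ψ, hψ1, hψ2, hψ3⟩ := exists_dual_K a b ht.le X
    obtain ⟨γ, hγ1, hγ2⟩ := exists_repr ψ ht.le (fun u => by rw [← hb]; exact hψ3 u)
    obtain ⟨β, hβ⟩ := F.exists_xi S' γ
    obtain ⟨X', hX'⟩ := F.exists_X S' β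
    have hx : ∀ x : Y → A, ∑ v, ⟪x v, X' v⟫ ≤ ∑ v, ‖x v‖ := by
      intro x
      obtain ⟨η, hη⟩ := F.exists_xi S x
      obtain ⟨Xη, hXη⟩ := F.exists_X S η
      have e1 := F.id2 H.adj hX' η
      have e2 := F.id1 H.adj hXη β
      have e3 := hψ2 Xη
      rw [ha, hxu hXη, hη, hγ1, ← hβ, e2, ← e1, hη] at e3
      exact e3
    have hX'1 : ∀ v, ‖X' v‖ ≤ 1 := by
      intro v
      have e1 := hx (Pi.single v (X' v))
      have e2 : ∑ w, ⟪(Pi.single v (X' v) : Y → A) w, X' w⟫ = ‖X' v‖ ^ 2 := by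
        rw [Finset.sum_eq_single v]
        · rw [Pi.single_eq_same, real_inner_self_eq_norm_sq]
        · intro w _ hw
          rw [Pi.single_eq_of_ne hw, inner_zero_left]
        · intro h
          exact absurd (Finset.mem_univ v) h
      have e3 : ∑ w, ‖(Pi.single v (X' v) : Y → A) w‖ = ‖X' v‖ := by
        rw [Finset.sum_eq_single v]
        · rw [Pi.single_eq_same]
        · intro w _ hw
          rw [Pi.single_eq_of_ne hw, norm_zero]
        · intro h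
          exact absurd (Finset.mem_univ v) h
      rw [e2, e3] at e1
      by_contra hcon
      push Not at hcon
      nlinarith
    have hHβ : F.H S' β ≤ c2 C₂ C₃ * t := by
      have e1 := F.H_le H.symm hC₂ hC₃ hX' hX'1
      rw [hβ, mul_one] at e1
      exact e1.trans (mul_le_mul_of_nonneg_left hγ2 (by linarith))
    have hHβ0 : 0 ≤ F.H S' β := F.H_nonneg H.symm β
    have hH0 : 0 ≤ F.H S ξ := F.H_nonneg H ξ
    -- the summands
    obtain ⟨p, hp⟩ : ∃ p : Y → ℝ, ∀ v, p v = if F.d v = 0 then ‖ξ v‖ ^ 2 else bq S (ξ v) := ⟨_, fun _ => rfl⟩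
    obtain ⟨q, hq⟩ : ∃ q : Y → ℝ, ∀ v, q v = if F.d v = 0 then ‖β v‖ ^ 2 else bq S' (β v) := ⟨_, fun _ => rfl⟩
    have hbq : ∀ x, 0 ≤ bq S x := fun x =>
      (mul_nonneg H.h_pos.le (sq_nonneg _)).trans (H.bq_ge x)
    have hp0 : ∀ v, 0 ≤ p v := by
      intro v
      rw [hp]
      split_ifs
      · positivity
      · exact hbq _
    have hq0 : ∀ v, 0 ≤ q v := by
      intro v
      rw [hq]
      split_ifs
      · positivity
      · rw [H.bq_symm]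
        exact hbq _
    have hpH : ∑ v, p v = F.H S ξ := Finset.sum_congr rfl fun v _ => hp v
    have hqH : ∑ v, q v = F.H S' β := Finset.sum_congr rfl fun v _ => hq v
    have hsum : ψ X ≤ c1 C₂ * ∑ v, √(p v) * √(q v) := by
      rw [hγ1, ← hβ, F.id1 H.adj hX β, Finset.mul_sum]
      refine Finset.sum_le_sum fun v _ => ?_
      by_cases hv : F.d v = 0
      · rw [if_pos hv, hp, hq, if_pos hv, if_pos hv, Real.sqrt_sq (norm_nonneg _), Real.sqrt_sq (norm_nonneg _)]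
        have e1 := real_inner_le_norm (ξ v) (β v)
        have e2 : 0 ≤ ‖ξ v‖ * ‖β v‖ := by positivity
        nlinarith
      · rw [if_neg hv, hp, hq, if_neg hv, if_neg hv, H.bq_symm]
        exact (le_abs_self _).trans (H.bil hC₂ (ξ v) (β v))
    have hcs : ∑ v, √(p v) * √(q v) ≤ √(F.H S ξ) * √(F.H S' β) := by
      rw [← hpH, ← hqH]
      exact Real.sum_sqrt_mul_sqrt_le Finset.univ hp0 hq0
    have hs1 : √(F.H S' β) ≤ c2 C₂ C₃ * √t := by
      have e1 : √(F.H S' β) ≤ √(c2 C₂ C₃ * t) := Real.sqrt_le_sqrt hHβ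
      rw [Real.sqrt_mul (by linarith)] at e1
      have e2 : √(c2 C₂ C₃) ≤ c2 C₂ C₃ := by
        rw [Real.sqrt_le_left (by linarith)]
        nlinarith
      exact e1.trans (mul_le_mul_of_nonneg_right e2 (Real.sqrt_nonneg _))
    rw [← hψ1]
    calc ψ X ≤ c1 C₂ * ∑ v, √(p v) * √(q v) := hsum
      _ ≤ c1 C₂ * (√(F.H S ξ) * (c2 C₂ C₃ * √t)) := by
          refine mul_le_mul_of_nonneg_left (hcs.trans ?_) (by linarith)
          exact mul_le_mul_of_nonneg_left hs1 (Real.sqrt_nonneg _)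
      _ = c3 C₂ C₃ * √(t * F.H S ξ) := by
          rw [Real.sqrt_mul ht.le, c3]
          ring
  -- a near minimiser
  obtain ⟨u, hu⟩ : ∃ u, a u + t * b (X - u) < c3 C₂ C₃ * √(t * F.H S ξ) + ε := by
    refine exists_lt_of_ciInf_lt (f := fun u : Y → A => a u + t * b (X - u)) ?_
    exact lt_of_le_of_lt key (by linarith)
  refine ⟨xi u, u, ‖X - u‖, hxi u, norm_nonneg _, fun v => norm_le_pi_norm (X - u) v, ?_⟩
  rw [ha, hb] at hu
  exact hu.le

end Pool.Agent.Helper25.SE
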