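import Pool.Agent.Helper25.SE.ChartX
import Pool.Agent.Helper25.SE.Forest3

/-!
# Project SE, block G4: the quadratic form of a chart (3.2)

Let `Y = {z // d z ≤ ρ}`, with the depth `d` and the parent `p z` (for roots the vertex itself): a `Forest Y`
(`Chart.par`; `d (p z) = d z - 1 ≤ ρ`).  The children of `v` in `Y` are the neighbours `z'` of `v` with
`d z' = d v + 1 ≤ ρ` (if `d z' ≠ 0` and `p z' = v` then `z' ~ v` and `d z' = d v + 1`; conversely see `ChartX`).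

For `x : Ω → A` let `ξ` be the solution of `E S ξ = x|_Y` (`exists_xi`, unique by `E_inj`, so additive in `x`) and
`Q x = H_S(ξ)`.  `IsQ Q` by `H_nonneg`, `H_par`.
Now let `x z = 0` for `d z > ρ`; extend `ξ` by `0` to `Ω`; let `IsX S ξ X` on `Y` (`exists_X`) and extend `X` by
`X z = S (X (p z))` for `ρ < d z ≤ ρ + D` (recursion on `d z`), `X z = 0` for `d z > ρ + D`.  By `chart_X`
`Phi G S D x = X` (for `d v ≤ ρ` the sum in `chart_X` is the sum over the children in `Y`; for `d v > ρ` it is `0`).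
* `Q x ≤ c₂ ‖x‖₁ F_S(x)`: `Forest.H_le` with `M = ‖X‖ = F_S(x)`.
* `K_t(x) ≤ c₃ √(t Q x)`: for `ε > 0` `Forest.K_le` gives `ξ'`, `X'`, `M`; let `u = E S ξ'` on `Y`, extended by `0`.
  As above (applied to `x - u`, with `ξ - ξ'` and `X - X'`, and the extension of `X - X'`) `Phi (x - u)` is the
  extension of `X - X'`, so `F_S(x - u) ≤ M` by `chart_sup`.
  So `K_t(x) ≤ ‖u‖₁ + t F_S(x - u) ≤ c₃ √(t Q x) + ε` (`NU.K_le`).
It is convenient to prove first: for `ξ` on `Y` and `x = E S ξ` extended by `0` there is `X` with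
`IsX S ξ X|_Y`, `Phi G S D x = X`, and `‖X z‖ ≤ M` for all `z` as soon as it holds on `Y` (`M ≥ 0`).
-/

namespace Pool.Agent.Helper25.SE

open Pool.Agent.Helper25.NU
open scoped RealInnerProductSpace

set_option linter.unusedSectionVars false

variable {Ω : Type} [Fintype Ω] {A : Type} [NormedAddCommGroup A] [InnerProductSpace ℝ A]
  {G : SimpleGraph Ω} {S S' : Module.End ℝ A} {D ρ : ℕ} {d : Ω → ℕ} {p : Ω → Ω} {C₂ C₃ h : ℝ}

/-- The forest of a chart, truncated at depth `K`. -/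
private def chF67 (hc : Chart G (ρ + D) d p) (K : ℕ) (hK : K ≤ ρ + D) : Forest {z : Ω // d z ≤ K} where
  d y := d y.1
  p y := if h : d y.1 ≠ 0 then ⟨p y.1, by
    have := hc.par y.1 h (y.2.trans hK)
    have := y.2
    omega⟩ else y
  lt y h := by
    have h1 := hc.par y.1 h (y.2.trans hK)
    simp only [dif_pos h]
    omega

private theorem chF67_p (hc : Chart G (ρ + D) d p) {K : ℕ} (hK : K ≤ ρ + D) {y : {z : Ω // d z ≤ K}}
    (h : d y.1 ≠ 0) : ((chF67 hc K hK).p y).1 = p y.1 := by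
  simp only [chF67, dif_pos h]

private theorem chF67_d (hc : Chart G (ρ + D) d p) {K : ℕ} (hK : K ≤ ρ + D) (y : {z : Ω // d z ≤ K}) :
    (chF67 hc K hK).d y = d y.1 := rfl

/-- Extension by zero. -/
private noncomputable def ext67 (d : Ω → ℕ) (K : ℕ) (g : {z : Ω // d z ≤ K} → A) (z : Ω) : A :=
  if h : d z ≤ K then g ⟨z, h⟩ else 0

private theorem ext67_pos {K : ℕ} (g : {z : Ω // d z ≤ K} → A) {z : Ω} (h : d z ≤ K) :
    ext67 d K g z = g ⟨z, h⟩ := dif_pos h

private theorem ext67_neg {K : ℕ} (g : {z : Ω // d z ≤ K} → A) {z : Ω} (h : ¬ d z ≤ K) :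
    ext67 d K g z = 0 := dif_neg h

private theorem ext67_val {K : ℕ} (g : {z : Ω // d z ≤ K} → A) (y : {z : Ω // d z ≤ K}) :
    ext67 d K g y.1 = g y := dif_pos y.2

private theorem sum_ext67 {K : ℕ} (g : {z : Ω // d z ≤ K} → A) :
    ∑ z, ‖ext67 d K g z‖ = ∑ y, ‖g y‖ := by
  rw [← Fintype.sum_subtype_add_sum_subtype (fun z => d z ≤ K) (fun z => ‖ext67 d K g z‖)]
  have h1 : ∑ i : {x // ¬ d x ≤ K}, ‖ext67 d K g i.1‖ = 0 :=
    Finset.sum_eq_zero fun i _ => by rw [ext67_neg g i.2, norm_zero]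
  rw [h1, add_zero]
  exact Finset.sum_congr rfl fun i _ => by rw [ext67_val]

private theorem ext_E67 (hc : Chart G (ρ + D) d p) (ξ : {z : Ω // d z ≤ ρ} → A) :
    (fun z => ext67 d ρ ξ z - ∑ z' ∈ nb G z, if d z' = d z + 1 then S (ext67 d ρ ξ z') else 0) =
      ext67 d ρ ((chF67 hc ρ (Nat.le_add_right _ _)).E S ξ) := by
  classical
  funext z
  by_cases hz : d z ≤ ρ
  · rw [ext67_pos _ hz, ext67_pos _ hz]
    unfold Forest.E
    congr 1
    have h1 : ∑ z' ∈ nb G z, (if d z' = d z + 1 then S (ext67 d ρ ξ z') else 0) =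
        ∑ z' ∈ (nb G z).filter (fun z' => d z' = d z + 1 ∧ d z' ≤ ρ), S (ext67 d ρ ξ z') := by
      rw [Finset.sum_filter]
      refine Finset.sum_congr rfl fun z' _ => ?_
      by_cases h2 : d z' = d z + 1
      · by_cases h3 : d z' ≤ ρ
        · rw [if_pos h2, if_pos ⟨h2, h3⟩]
        · rw [if_pos h2, if_neg (fun h => h3 h.2), ext67_neg _ h3, map_zero]
      · rw [if_neg h2, if_neg (fun h => h2 h.1)]
    rw [h1]
    symm
    refine Finset.sum_bij (fun c _ => c.1) ?_ ?_ ?_ ?_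
    · intro c hc'
      rw [Forest.mem_ch] at hc'
      obtain ⟨h2, h3⟩ := hc'
      have h2 : d c.1 ≠ 0 := h2
      have h4 : p c.1 = z := by
        have := congrArg Subtype.val h3
        rwa [chF67_p hc _ h2] at this
      have hK : d c.1 ≤ ρ + D := c.2.trans (Nat.le_add_right _ _)
      have h5 := hc.par c.1 h2 hK
      have h6 := hc.adj c.1 h2 hK
      rw [h4] at h5 h6
      rw [Finset.mem_filter, mem_nb]
      exact ⟨h6.symm, h5.symm, c.2⟩
    · intro a _ b _ h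
      exact Subtype.ext h
    · intro b hb
      rw [Finset.mem_filter, mem_nb] at hb
      obtain ⟨h2, h3, h4⟩ := hb
      refine ⟨⟨b, h4⟩, ?_, rfl⟩
      rw [Forest.mem_ch]
      have h5 : d b ≠ 0 := by omega
      refine ⟨h5, Subtype.ext ?_⟩
      rw [chF67_p hc _ (y := ⟨b, h4⟩) h5]
      by_contra h6
      have h7 := hc.other b z h5 (by omega) h2.symm (fun h => h6 h.symm)
      omega
    · intro c _
      rw [ext67_val]
  · rw [ext67_neg _ hz, ext67_neg _ hz, zero_sub, neg_eq_zero]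
    refine Finset.sum_eq_zero fun z' _ => ?_
    by_cases h2 : d z' = d z + 1
    · rw [if_pos h2, ext67_neg _ (by omega), map_zero]
    · rw [if_neg h2]

private theorem key67 (hS : S ^ D = 0) (hn : ∀ x, ‖S x‖ ≤ ‖x‖) (hD : 0 < D)
    (hc : Chart G (ρ + D) d p) {ξ X : {z : Ω // d z ≤ ρ} → A}
    (hX : (chF67 hc ρ (Nat.le_add_right _ _)).IsX S ξ X) :
    (∀ y : {z : Ω // d z ≤ ρ},
      Phi G S D (ext67 d ρ ((chF67 hc ρ (Nat.le_add_right _ _)).E S ξ)) y.1 = X y) ∧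
    ∀ M : ℝ, 0 ≤ M → (∀ y, ‖X y‖ ≤ M) →
      ‖Phi G S D (ext67 d ρ ((chF67 hc ρ (Nat.le_add_right _ _)).E S ξ))‖ ≤ M := by
  obtain ⟨X', hX'0, hX'1⟩ := (chF67 hc (ρ + D) le_rfl).exists_X S
    (fun y => ext67 d ρ ξ y.1)
  set Xe : Ω → A := ext67 d (ρ + D) X' with hXe
  have h0 : ∀ z, d z = 0 → Xe z = ext67 d ρ ξ z := by
    intro z hz
    have h1 : d z ≤ ρ + D := by omega
    rw [hXe, ext67_pos _ h1]
    exact hX'0 ⟨z, h1⟩ hz
  have h1 : ∀ z, d z ≠ 0 → d z ≤ ρ + D →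
      Xe z = S (Xe (p z)) + (ext67 d ρ ξ z - S (S (ext67 d ρ ξ z))) := by
    intro z hz h1
    have h2 := hX'1 ⟨z, h1⟩ hz
    have h3 : d (p z) ≤ ρ + D := by
      have := hc.par z hz h1
      omega
    rw [hXe, ext67_pos _ h1, ext67_pos _ h3, h2]
    congr 3
    exact Subtype.ext (chF67_p hc le_rfl (y := ⟨z, h1⟩) hz)
  have h2 : ∀ z, ρ + D < d z → Xe z = 0 := by
    intro z hz
    rw [hXe, ext67_neg _ (by omega)]
  have h3 : ∀ z, ρ < d z → ext67 d ρ ξ z = 0 := fun z hz => ext67_neg _ (by omega)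
  have h4 := chart_X hS hD hc h3 h0 h1 h2
  rw [ext_E67 hc] at h4
  rw [h4]
  have h5 : ∀ y : {z : Ω // d z ≤ ρ}, Xe y.1 = X y := by
    have h6 : (chF67 hc ρ (Nat.le_add_right _ _)).IsX S ξ (fun y => Xe y.1) := by
      refine ⟨fun v hv => ?_, fun v hv => ?_⟩
      · have := h0 v.1 hv
        rw [ext67_val] at this
        exact this
      · have h7 := h1 v.1 hv (v.2.trans (Nat.le_add_right _ _))
        rw [ext67_val] at h7
        have h8 := chF67_p hc (Nat.le_add_right ρ D) (y := v) hv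
        simp only
        rw [h7, h8]
    intro y
    exact congrFun (Forest.X_unique _ h6 hX) y
  refine ⟨h5, fun M hM hb => ?_⟩
  rw [pi_norm_le_iff_of_nonneg hM]
  refine chart_sup hn hc h3 h1 h2 hM ?_
  intro z hz
  rw [h5 ⟨z, hz⟩]
  exact hb _

theorem chart_Q [FiniteDimensional ℝ A] (H : Sop C₂ C₃ h S S') (hC₂ : 0 ≤ C₂) (hC₃ : 0 ≤ C₃)
    (hS : S ^ D = 0) (hD : 0 < D) (hc : Chart G (ρ + D) d p) :
    ∃ Q : (Ω → A) → ℝ, IsQ Q ∧ ∀ x : Ω → A, (∀ z, ρ < d z → x z = 0) →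
      Q x ≤ c2 C₂ C₃ * sn1 Ω A x * FS G S D x ∧
      ∀ t : ℝ, 0 < t → K (sn1 Ω A) (FS G S D) t x ≤ c3 C₂ C₃ * √(t * Q x) := by
  have hle : ρ ≤ ρ + D := Nat.le_add_right _ _
  set F := chF67 hc ρ hle with hF
  have hn : ∀ x, ‖S x‖ ≤ ‖x‖ := by
    intro x
    have h1 := H.norm_le x
    have h2 := H.h_pos
    nlinarith [norm_nonneg x]
  choose xi hxi using fun x : Ω → A => F.exists_xi S (fun y => x y.1)
  have hE_sub : ∀ ξ ξ' : {z : Ω // d z ≤ ρ} → A, F.E S (ξ - ξ') = F.E S ξ - F.E S ξ' := by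
    intro ξ ξ'
    have h1 := F.E_add S (ξ - ξ') ξ'
    rw [sub_add_cancel] at h1
    rw [h1, add_sub_cancel_right]
  have hadd : ∀ x y, xi (x + y) = xi x + xi y := by
    intro x y
    apply F.E_inj (S := S)
    rw [F.E_add, hxi, hxi, hxi]
    rfl
  have hsub : ∀ x y, xi (x - y) = xi x - xi y := by
    intro x y
    apply F.E_inj (S := S)
    rw [hE_sub, hxi, hxi, hxi]
    rfl
  refine ⟨fun x => F.H S (xi x), ⟨fun x => F.H_nonneg H _, fun x y => ?_⟩, fun x hx => ?_⟩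
  · rw [hadd, hsub]
    exact F.H_par S _ _
  have hxe : x = ext67 d ρ (F.E S (xi x)) := by
    funext z
    by_cases hz : d z ≤ ρ
    · rw [ext67_pos _ hz, hxi]
    · rw [ext67_neg _ hz]
      exact hx z (by omega)
  obtain ⟨X, hX⟩ := F.exists_X S (xi x)
  have hk := key67 hS hn hD hc hX
  have hsum : ∑ v, ‖F.E S (xi x) v‖ = sn1 Ω A x := by
    rw [← sum_ext67, ← hxe, sn1_apply]
  constructor
  · have h1 : ∀ v, ‖X v‖ ≤ FS G S D x := by
      intro v
      rw [FS_apply, ← hk.1 v, ← hF, ← hxe]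
      exact norm_le_pi_norm _ _
    have h2 := F.H_le H hC₂ hC₃ hX h1
    rwa [hsum] at h2
  · intro t ht
    refine le_of_forall_pos_le_add fun ε hε => ?_
    obtain ⟨ξ', X', M, hX', hM, hb, hK⟩ := F.K_le H hC₂ hC₃ hX ht hε
    have hX2 : F.IsX S (xi x - ξ') (X - X') := by
      have h1 := hX.add (hX'.smul (-1))
      simpa [sub_eq_add_neg] using h1
    have hk2 := (key67 hS hn hD hc hX2).2 M hM (fun y => hb y)
    have hu : x - ext67 d ρ (F.E S ξ') = ext67 d ρ (F.E S (xi x - ξ')) := by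
      rw [hE_sub]
      conv_lhs => rw [hxe]
      funext z
      by_cases hz : d z ≤ ρ
      · simp only [Pi.sub_apply]
        rw [ext67_pos _ hz, ext67_pos _ hz, ext67_pos _ hz]
        rfl
      · simp only [Pi.sub_apply]
        rw [ext67_neg _ hz, ext67_neg _ hz, ext67_neg _ hz, sub_zero]
    refine (K_le _ _ ht.le x (ext67 d ρ (F.E S ξ'))).trans ?_
    rw [hu, FS_apply, sn1_apply, sum_ext67]
    refine le_trans ?_ hK
    exact add_le_add le_rfl (mul_le_mul_of_nonneg_left hk2 ht.le)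

end Pool.Agent.Helper25.SE
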