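import Pool.Agent.Helper25.SE.Phi

/-!
# Project SE, block G3: the kernel operator on a chart (3.2)

`chart_X`: the function `X` satisfies `Lop G S X = (1 - S²) x`, so `Phi G S D x = X` (`Phi_eq`).
First: if `ρ ≤ d z ≤ ρ + D` then `X z = S^{d z - ρ} (X v)` for some `v` with `d v = ρ` (induction on
`d z - ρ`, `ξ z = 0` for `d z > ρ`, `X z = S (X (p z))`, `d (p z) = d z - 1`).  So `X z = 0` if `d z = ρ + D`, hence for
`d z ≥ ρ + D`, and `S (X z) = 0` if `d z ≥ ρ + D - 1`.  Let `K = ρ + D`.  If `z' ~ z`, `d z' = d z + 1 ≤ K`, then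
`p z' = z` (for `z'` the neighbours other than `p z'` have depth `d z' + 1 ≠ d z`).
* `d z = 0`: all neighbours have depth `1 ≤ K`, `X z' = S X z + ξ z' - S² ξ z'`, `X z = ξ z`, and
  `Lop X (z) = ξ z - deg z • S² X z - ∑ (S ξ z' - S³ ξ z') + (deg z - 1) S² X z = (1 - S²)(ξ z - ∑ S ξ z')`.
* `1 ≤ d z < K`: one neighbour is `p z`, the others have depth `d z + 1 ≤ K`;
  `Lop X (z) = X z - S X (p z) - ∑_{z' ≠ p z} (S² X z + (1 - S²) S ξ z') + (deg z - 1) S² X z`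
  `= (1 - S²) ξ z - (1 - S²) ∑ S ξ z'` (the neighbours of depth `d z + 1` are exactly those `≠ p z`).
* `d z = K`: `X z = 0`, `S (X (p z)) = 0`, the other neighbours have depth `K + 1`, `X z' = 0`, and `x z = 0`.
* `d z > K`: `X z = 0`, each neighbour has depth `≥ K` (`lip`), so `X z' = 0`; `x z = 0`.

`chart_sup`: `‖X z‖ ≤ ‖X v‖` for the `v` above.
-/

namespace Pool.Agent.Helper25.SE

open Pool.Agent.Helper25.NU
open scoped RealInnerProductSpace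

variable {Ω : Type} [Fintype Ω] {A : Type} [NormedAddCommGroup A] [InnerProductSpace ℝ A]
  {G : SimpleGraph Ω} {S : Module.End ℝ A} {D ρ : ℕ} {d : Ω → ℕ} {p : Ω → Ω}

theorem chart_anc (hc : Chart G (ρ + D) d p) {ξ X : Ω → A} (hξ : ∀ z, ρ < d z → ξ z = 0)
    (hX1 : ∀ z, d z ≠ 0 → d z ≤ ρ + D → X z = S (X (p z)) + (ξ z - S (S (ξ z)))) (z : Ω)
    (h1 : ρ ≤ d z) (h2 : d z ≤ ρ + D) : ∃ v, d v = ρ ∧ X z = (S ^ (d z - ρ)) (X v) := by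
  sorry

theorem chart_X (hS : S ^ D = 0) (hD : 0 < D) (hc : Chart G (ρ + D) d p) {ξ X : Ω → A}
    (hξ : ∀ z, ρ < d z → ξ z = 0) (hX0 : ∀ z, d z = 0 → X z = ξ z)
    (hX1 : ∀ z, d z ≠ 0 → d z ≤ ρ + D → X z = S (X (p z)) + (ξ z - S (S (ξ z))))
    (hX2 : ∀ z, ρ + D < d z → X z = 0) :
    Phi G S D (fun z => ξ z - ∑ z' ∈ nb G z, if d z' = d z + 1 then S (ξ z') else 0) = X := by
  sorry

theorem chart_sup (hn : ∀ x, ‖S x‖ ≤ ‖x‖) (hc : Chart G (ρ + D) d p) {ξ X : Ω → A}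
    (hξ : ∀ z, ρ < d z → ξ z = 0)
    (hX1 : ∀ z, d z ≠ 0 → d z ≤ ρ + D → X z = S (X (p z)) + (ξ z - S (S (ξ z))))
    (hX2 : ∀ z, ρ + D < d z → X z = 0) {M : ℝ} (hM : 0 ≤ M)
    (h : ∀ z, d z ≤ ρ → ‖X z‖ ≤ M) (z : Ω) : ‖X z‖ ≤ M := by
  sorry

end Pool.Agent.Helper25.SE
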