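import Pool.Agent.Helper25.NU.Tree
import Pool.Agent.Helper25.NU.KJ

/-!
# Project SE (MP_460089_an, frozen statement S04538): a uniformly convex space whose unit ball does
not embed uniformly into a Hilbert space.  Definitions

The proof in words is /team-store/h25_SE_proof.md; the sections quoted in the blocks are those of this file.
Trees, `K`, `J`, `US` are those of project NU.

* `BIt a b t δ m`: the basic inequality for one `t`.  (Write `NU.Tree V` for the type of trees, `Tree V` is ambiguous.)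
* `Sop C₂ C₃ h S S'`: the class of operators; `bq S x = ⟨B₀ x, x⟩`, `B₀ = 1 - (S + S')/2`.
* `Forest Y`: rooted forests, given by depth and parent; `E S ξ = x`, `IsX S ξ X`, `H S ξ` are the objects
  of section 2.
* `nb G z`: the neighbours of `z`; `Lop G S`, `Phi G S D`, `FS G S D`: section 3.
* `GG G d g`: connected graphs with degrees at most `d` and no cycle of length at most `g`.
* `Chart G K d p`: the charts of (3.2).
* `IsQ Q`: quadratic forms, by the parallelogram law.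
-/

namespace Pool.Agent.Helper25.SE

open Pool.Agent.Helper25.NU
open scoped RealInnerProductSpace

/-- The basic inequality for one value of `t`. -/
def BIt {V : Type} [AddCommGroup V] [Module ℝ V] (a b : Seminorm ℝ V) (t δ : ℝ) (m : ℕ) : Prop :=
  ∀ T : NU.Tree V, T.All (fun s => (∀ v ∈ s, J a b t v ≤ 1) ∧ nz s ≤ m) →
    T.E (fun s => K a b t s.sum) ≤ δ * m

/-- Non-negative quadratic forms. -/
structure IsQ {V : Type} [AddCommGroup V] (Q : V → ℝ) : Prop where
  nonneg : ∀ x, 0 ≤ Q x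
  par : ∀ x y, Q (x + y) + Q (x - y) = 2 * Q x + 2 * Q y

section Op

variable {A : Type} [NormedAddCommGroup A] [InnerProductSpace ℝ A]

/-- The class of operators: `S'` is the adjoint of `S`. -/
structure Sop (C₂ C₃ h : ℝ) (S S' : Module.End ℝ A) : Prop where
  h_pos : 0 < h
  h_le : h ≤ 1
  adj : ∀ x y, ⟪S x, y⟫ = ⟪x, S' y⟫
  norm_le : ∀ x, ‖S x‖ ≤ (1 - h) * ‖x‖
  norm_le' : ∀ x, ‖S' x‖ ≤ (1 - h) * ‖x‖
  diff : ∀ x, ‖S x - S' x‖ ≤ C₂ * h * ‖x‖
  comm : ∀ x, ‖S' (S x) - S (S' x)‖ ≤ C₃ * h ^ 2 * ‖x‖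
  lower : ∀ x, -(1 / 2) * ‖x‖ ^ 2 ≤ ⟪S x, x⟫

/-- `⟨B₀ x, x⟩`, where `B₀ = 1 - (S + S')/2`. -/
noncomputable def bq (S : Module.End ℝ A) (x : A) : ℝ := ‖x‖ ^ 2 - ⟪S x, x⟫

/-- The constants of section 2. -/
noncomputable def c1 (C₂ : ℝ) : ℝ := 2 + C₂ + (2 + C₂) ^ 2

noncomputable def c2 (C₂ C₃ : ℝ) : ℝ := 5 + 4 * C₂ + C₃ + C₂ ^ 2

noncomputable def c3 (C₂ C₃ : ℝ) : ℝ := c1 C₂ * c2 C₂ C₃

theorem c1_ge {C₂ : ℝ} (h : 0 ≤ C₂) : 1 ≤ c1 C₂ := by
  unfold c1; nlinarith [sq_nonneg (2 + C₂)]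

theorem c2_ge {C₂ C₃ : ℝ} (h : 0 ≤ C₂) (h' : 0 ≤ C₃) : 1 ≤ c2 C₂ C₃ := by
  unfold c2; nlinarith [sq_nonneg C₂]

theorem c3_ge {C₂ C₃ : ℝ} (h : 0 ≤ C₂) (h' : 0 ≤ C₃) : 1 ≤ c3 C₂ C₃ := by
  have h1 := c1_ge h
  have h2 := c2_ge h h'
  unfold c3; nlinarith

end Op

/-- Rooted forests: `d` is the depth, `p` the parent; the roots are the vertices of depth `0`. -/
structure Forest (Y : Type) where
  d : Y → ℕ
  p : Y → Y
  lt : ∀ y, d y ≠ 0 → d (p y) < d y

section Forest

variable {Y : Type} [Fintype Y] {A : Type} [NormedAddCommGroup A] [InnerProductSpace ℝ A]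

open Classical in
/-- The children of a vertex. -/
noncomputable def Forest.ch (F : Forest Y) (v : Y) : Finset Y :=
  Finset.univ.filter fun c => F.d c ≠ 0 ∧ F.p c = v

/-- `x(v) = ξ(v) - ∑_{children c} S ξ(c)`. -/
noncomputable def Forest.E (F : Forest Y) (S : Module.End ℝ A) (ξ : Y → A) : Y → A :=
  fun v => ξ v - ∑ c ∈ F.ch v, S (ξ c)

/-- `X(root) = ξ(root)`, `X(v) = S X(p v) + (1 - S²) ξ(v)`. -/
def Forest.IsX (F : Forest Y) (S : Module.End ℝ A) (ξ X : Y → A) : Prop :=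
  (∀ v, F.d v = 0 → X v = ξ v) ∧ ∀ v, F.d v ≠ 0 → X v = S (X (F.p v)) + (ξ v - S (S (ξ v)))

/-- `H_S(ξ)²`. -/
noncomputable def Forest.H (F : Forest Y) (S : Module.End ℝ A) (ξ : Y → A) : ℝ :=
  ∑ v, if F.d v = 0 then ‖ξ v‖ ^ 2 else bq S (ξ v)

end Forest

section Graph

set_option linter.unusedSectionVars false

variable {Ω : Type} [Fintype Ω] {A : Type} [NormedAddCommGroup A] [InnerProductSpace ℝ A]

open Classical in
/-- The neighbours of a vertex. -/
noncomputable def nb (G : SimpleGraph Ω) (z : Ω) : Finset Ω :=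
  Finset.univ.filter fun z' => G.Adj z z'

theorem mem_nb {G : SimpleGraph Ω} {z z' : Ω} : z' ∈ nb G z ↔ G.Adj z z' := by
  simp [nb]

/-- Connected graphs with degrees at most `d` and without cycles of length at most `g`. -/
structure GG (G : SimpleGraph Ω) (d g : ℕ) : Prop where
  conn : G.Connected
  deg : ∀ z, (nb G z).card ≤ d
  girth : ∀ (v : Ω) (p : G.Walk v v), p.IsCycle → g < p.length

/-- `S` acting pointwise. -/
noncomputable def pt (S : Module.End ℝ A) : Module.End ℝ (Ω → A) where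
  toFun X := fun z => S (X z)
  map_add' X X' := by funext z; simp
  map_smul' c X := by funext z; simp

@[simp] theorem pt_apply (S : Module.End ℝ A) (X : Ω → A) (z : Ω) : pt S X z = S (X z) := rfl

/-- The local operator `X(z) - ∑_{z' ~ z} S X(z') + (deg z - 1) S² X(z)`. -/
noncomputable def Lop (G : SimpleGraph Ω) (S : Module.End ℝ A) : Module.End ℝ (Ω → A) where
  toFun X := fun z => X z - ∑ z' ∈ nb G z, S (X z') + (((nb G z).card : ℝ) - 1) • S (S (X z))
  map_add' X X' := by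
    funext z
    simp only [Pi.add_apply, map_add, Finset.sum_add_distrib, smul_add]
    abel
  map_smul' c X := by
    funext z
    simp only [Pi.smul_apply, map_smul, RingHom.id_apply, ← Finset.smul_sum, smul_sub, smul_add]
    rw [smul_comm]

theorem Lop_apply (G : SimpleGraph Ω) (S : Module.End ℝ A) (X : Ω → A) (z : Ω) :
    Lop G S X z = X z - ∑ z' ∈ nb G z, S (X z') + (((nb G z).card : ℝ) - 1) • S (S (X z)) := rfl

/-- The kernel operator `Φ_S = Lop⁻¹ (1 - S²)`, for `S ^ D = 0`. -/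
noncomputable def Phi (G : SimpleGraph Ω) (S : Module.End ℝ A) (D : ℕ) : Module.End ℝ (Ω → A) :=
  (∑ k ∈ Finset.range D, (1 - Lop G S) ^ k) * (1 - pt S * pt S)

/-- `F_S(x) = sup_z ‖Φ_S x(z)‖`. -/
noncomputable def FS (G : SimpleGraph Ω) (S : Module.End ℝ A) (D : ℕ) : Seminorm ℝ (Ω → A) :=
  (normSeminorm ℝ (Ω → A)).comp (Phi G S D)

theorem FS_apply (G : SimpleGraph Ω) (S : Module.End ℝ A) (D : ℕ) (x : Ω → A) :
    FS G S D x = ‖Phi G S D x‖ := rfl

/-- The norm `∑_z ‖x(z)‖`. -/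
noncomputable def sn1 (Ω A : Type) [Fintype Ω] [NormedAddCommGroup A] [InnerProductSpace ℝ A] :
    Seminorm ℝ (Ω → A) :=
  Seminorm.of (fun x => ∑ z, ‖x z‖)
    (fun x y => by
      rw [← Finset.sum_add_distrib]
      exact Finset.sum_le_sum fun z _ => norm_add_le _ _)
    (fun c x => by
      rw [Finset.mul_sum]
      exact Finset.sum_congr rfl fun z _ => norm_smul _ _)

theorem sn1_apply (x : Ω → A) : sn1 Ω A x = ∑ z, ‖x z‖ := rfl

/-- Charts: `d` is the distance to a set of centres (roots), up to distance `K` the graph looks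
like a forest with these roots, `p z` is the neighbour of `z` in the direction of the root. -/
structure Chart (G : SimpleGraph Ω) (K : ℕ) (d : Ω → ℕ) (p : Ω → Ω) : Prop where
  root : ∀ z z', d z = 0 → G.Adj z z' → d z' = 1
  adj : ∀ z, d z ≠ 0 → d z ≤ K → G.Adj z (p z)
  par : ∀ z, d z ≠ 0 → d z ≤ K → d (p z) + 1 = d z
  other : ∀ z z', d z ≠ 0 → d z ≤ K → G.Adj z z' → z' ≠ p z → d z' = d z + 1
  lip : ∀ z z', G.Adj z z' → d z' ≤ d z + 1

end Graph

end Pool.Agent.Helper25.SE
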