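import Pool.Agent.Helper25.SE.Op1

/-!
# Project SE, block F1: forests, existence and the summation formulas (2.1)

* `sum_ch`: each `c` with `d c ≠ 0` is a child of exactly one vertex, `p c`.
* `exists_X`: define `X` by recursion on the depth (well-founded by `F.lt`).  `X_unique`: strong induction on `d`.
* `E_inj`, `exists_xi`: if `E S ξ = 0` then `ξ = 0`: by induction on `n`, `ξ v = 0` for all `v` with
  `n + d v ≥ max d + 1`, downwards: for the children `c` of `v` one has `d c > d v`.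
  So the linear map `ξ ↦ E S ξ` is injective, and surjective as `Y → A` is finite-dimensional.
* `exists_xi_of_X`: for roots `ξ v = X v`, otherwise solve `ξ v - S (S (ξ v)) = X v - S (X (p v))` (`Sop.surj`).
* `id1`: `∑_v ⟨X v, b v - ∑_{c} S' b c⟩ = ∑_v ⟨X v, b v⟩ - ∑_{c : d c ≠ 0} ⟨S X (p c), b c⟩`
  `= ∑_{d v = 0} ⟨ξ v, b v⟩ + ∑_{d v ≠ 0} ⟨X v - S X (p v), b v⟩`, and `X v - S X (p v) = ξ v - S (S (ξ v))`.
* `id2`: `∑_v ⟨ξ v - ∑_c S ξ c, X' v⟩ = ∑_v ⟨ξ v, X' v⟩ - ∑_{c : d c ≠ 0} ⟨ξ c, S' X' (p c)⟩`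
  `= ∑_{d v = 0} ⟨ξ v, b v⟩ + ∑_{d v ≠ 0} ⟨ξ v, b v - S' (S' (b v))⟩`.
* `id3`: the same with `Z`: `Z v = X v` at the roots and `Z v = S' (Z (p v)) + (ξ v - (1/2) (S ξ v + S' ξ v))`:
  `∑_v ⟨E S ξ v, Z v⟩ = H_S(ξ)` (`X v = ξ v` at the roots), as `⟨ξ v, (S ξ v + S' ξ v)/2⟩ = ⟨S ξ v, ξ v⟩`.
* `exists_Z`: as `exists_X`.
-/

namespace Pool.Agent.Helper25.SE

open Pool.Agent.Helper25.NU
open scoped RealInnerProductSpace

variable {Y : Type} [Fintype Y] {A : Type} [NormedAddCommGroup A] [InnerProductSpace ℝ A]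
  {S S' : Module.End ℝ A}

theorem Forest.mem_ch (F : Forest Y) {v c : Y} : c ∈ F.ch v ↔ F.d c ≠ 0 ∧ F.p c = v := by
  simp [Forest.ch]

theorem Forest.sum_ch (F : Forest Y) (f : Y → Y → ℝ) :
    ∑ v, ∑ c ∈ F.ch v, f c v = ∑ c, if F.d c = 0 then 0 else f c (F.p c) := by
  sorry

/-- Recursion along the forest. -/
theorem Forest.exists_rec (F : Forest Y) (r g : Y → A) (S : Module.End ℝ A) :
    ∃ X : Y → A, (∀ v, F.d v = 0 → X v = r v) ∧ ∀ v, F.d v ≠ 0 → X v = S (X (F.p v)) + g v := by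
  sorry

theorem Forest.exists_X (F : Forest Y) (S : Module.End ℝ A) (ξ : Y → A) : ∃ X, F.IsX S ξ X :=
  F.exists_rec ξ (fun v => ξ v - S (S (ξ v))) S

theorem Forest.X_unique (F : Forest Y) {ξ X X₂ : Y → A} (h : F.IsX S ξ X) (h₂ : F.IsX S ξ X₂) :
    X = X₂ := by
  sorry

theorem Forest.E_inj (F : Forest Y) {ξ ξ' : Y → A} (h : F.E S ξ = F.E S ξ') : ξ = ξ' := by
  sorry

theorem Forest.exists_xi [FiniteDimensional ℝ A] (F : Forest Y) (S : Module.End ℝ A)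
    (x : Y → A) : ∃ ξ, F.E S ξ = x := by
  sorry

theorem Forest.exists_xi_of_X (F : Forest Y) (hS : ∀ y, ∃ x, x - S (S x) = y) (X : Y → A) :
    ∃ ξ, F.IsX S ξ X := by
  sorry

theorem Forest.E_add (F : Forest Y) (S : Module.End ℝ A) (ξ ξ' : Y → A) :
    F.E S (ξ + ξ') = F.E S ξ + F.E S ξ' := by
  sorry

theorem Forest.E_smul (F : Forest Y) (S : Module.End ℝ A) (c : ℝ) (ξ : Y → A) :
    F.E S (c • ξ) = c • F.E S ξ := by
  sorry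

theorem Forest.IsX.add {F : Forest Y} {ξ X ξ' X' : Y → A} (h : F.IsX S ξ X)
    (h' : F.IsX S ξ' X') : F.IsX S (ξ + ξ') (X + X') := by
  sorry

theorem Forest.IsX.smul {F : Forest Y} {ξ X : Y → A} (h : F.IsX S ξ X) (c : ℝ) :
    F.IsX S (c • ξ) (c • X) := by
  sorry

theorem Forest.id1 (F : Forest Y) (hadj : ∀ x y, ⟪S x, y⟫ = ⟪x, S' y⟫) {ξ X : Y → A}
    (h : F.IsX S ξ X) (b : Y → A) :
    ∑ v, ⟪X v, F.E S' b v⟫ =
      ∑ v, if F.d v = 0 then ⟪ξ v, b v⟫ else ⟪ξ v - S (S (ξ v)), b v⟫ := by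
  sorry

theorem Forest.id2 (F : Forest Y) (hadj : ∀ x y, ⟪S x, y⟫ = ⟪x, S' y⟫) {b X' : Y → A}
    (h : F.IsX S' b X') (ξ : Y → A) :
    ∑ v, ⟪F.E S ξ v, X' v⟫ =
      ∑ v, if F.d v = 0 then ⟪ξ v, b v⟫ else ⟪ξ v - S (S (ξ v)), b v⟫ := by
  sorry

theorem Forest.id3 (F : Forest Y) (hadj : ∀ x y, ⟪S x, y⟫ = ⟪x, S' y⟫) (ξ Z : Y → A)
    (h0 : ∀ v, F.d v = 0 → Z v = ξ v)
    (h1 : ∀ v, F.d v ≠ 0 → Z v = S' (Z (F.p v)) + (ξ v - (1 / 2 : ℝ) • (S (ξ v) + S' (ξ v)))) :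
    ∑ v, ⟪F.E S ξ v, Z v⟫ = F.H S ξ := by
  sorry

end Pool.Agent.Helper25.SE
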