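import Pool.Agent.Helper25.SE.Op1

/-!
# Project SE, block O2: the operator `Θ = B₀ (1 - S²)⁻¹`

Write `Q = (S - S')/2`, `B₀ = 1 - (S + S')/2 = 1 - S + Q`.
`1 - S` and `1 + S` are injective: `‖x - S x‖ ≥ h ‖x‖`, `⟨x + S x, x⟩ ≥ ‖x‖²/2`, so `‖x + S x‖ ≥ ‖x‖/2`.  As `A`
is finite-dimensional they have inverses `R`, `R'` (two-sided), `‖R x‖ ≤ ‖x‖/h`, `‖R' x‖ ≤ 2 ‖x‖`.
Let `Θ = (1 + Q R) R'`.  Then `Θ (1 - S²) = (1 + Q R) R' (1 + S) (1 - S) = (1 + Q R) (1 - S) = 1 - S + Q = B₀`.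
`‖Θ x‖ ≤ (1 + (C₂ h/2)/h) 2 ‖x‖ = (2 + C₂) ‖x‖`.
`S' Θ - Θ S`: since `1 - S²` is surjective and commutes with `S`, it is enough to compute
`(S' Θ - Θ S) (1 - S²) = S' B₀ - B₀ S = - Q (1 - S) - (1 - S) Q - 2 Q²` (put `S' = S - 2 Q`).  So
`S' Θ - Θ S = [- Q - (1 - S) Q R - 2 Q² R] R'` and `(1 - S) Q R = Q + (Q S - S Q) R`, because
`(1 - S) Q = Q (1 - S) + (Q S - S Q)`; `Q S - S Q = (S S' - S' S)/2` has norm `≤ C₃ h²/2`.
So `‖S' Θ x - Θ S x‖ ≤ 2 (C₂ h/2 + C₂ h/2 + (C₃ h²/2)/h + 2 (C₂ h/2)²/h) ‖x‖ = (2 C₂ + C₃ + C₂²) h ‖x‖`.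
-/

namespace Pool.Agent.Helper25.SE

open Pool.Agent.Helper25.NU
open scoped RealInnerProductSpace

private theorem aux_oneSub26 {A : Type} [NormedAddCommGroup A] [InnerProductSpace ℝ A]
    {C₂ C₃ h : ℝ} {S S' : Module.End ℝ A} (H : Sop C₂ C₃ h S S') (z : A) :
    h * ‖z‖ ≤ ‖z - S z‖ := by
  have h1 : ‖z‖ - ‖S z‖ ≤ ‖z - S z‖ := norm_sub_norm_le z (S z)
  have h2 := H.norm_le z
  linarith

private theorem aux_oneAdd26 {A : Type} [NormedAddCommGroup A] [InnerProductSpace ℝ A]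
    {C₂ C₃ h : ℝ} {S S' : Module.End ℝ A} (H : Sop C₂ C₃ h S S') (y : A) :
    ‖y‖ ≤ 2 * ‖y + S y‖ := by
  have h1 : ⟪y + S y, y⟫ ≤ ‖y + S y‖ * ‖y‖ := real_inner_le_norm _ _
  have h2 := H.lower y
  rw [inner_add_left, real_inner_self_eq_norm_sq] at h1
  rcases (norm_nonneg y).eq_or_lt with h0 | h0
  · rw [← h0]; positivity
  · have h3 : ‖y‖ * ‖y‖ ≤ (2 * ‖y + S y‖) * ‖y‖ := by nlinarith
    exact le_of_mul_le_mul_right h3 h0

private theorem aux_inj26 {A : Type} [NormedAddCommGroup A] [InnerProductSpace ℝ A]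
    {C₂ C₃ h : ℝ} {S S' : Module.End ℝ A} (H : Sop C₂ C₃ h S S') (z : A) :
    h * ‖z‖ ≤ 2 * ‖z - S (S z)‖ := by
  have h1 := aux_oneSub26 H z
  have h2 := aux_oneAdd26 H (z - S z)
  have h3 : z - S z + S (z - S z) = z - S (S z) := by rw [map_sub]; abel
  rw [h3] at h2
  linarith

theorem Sop.exists_theta {A : Type} [NormedAddCommGroup A] [InnerProductSpace ℝ A]
    [FiniteDimensional ℝ A] {C₂ C₃ h : ℝ} {S S' : Module.End ℝ A} (H : Sop C₂ C₃ h S S')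
    (hC₂ : 0 ≤ C₂) (hC₃ : 0 ≤ C₃) :
    ∃ Θ : Module.End ℝ A, (∀ x, Θ (x - S (S x)) = x - (1 / 2 : ℝ) • (S x + S' x)) ∧
      (∀ x, ‖Θ x‖ ≤ (2 + C₂) * ‖x‖) ∧
      ∀ x, ‖S' (Θ x) - Θ (S x)‖ ≤ (2 * C₂ + C₃ + C₂ ^ 2) * h * ‖x‖ := by
  classical
  have hh := H.h_pos
  let P : Module.End ℝ A := LinearMap.id - S ∘ₗ S
  have hP : ∀ z, P z = z - S (S z) := fun z => rfl
  have hinj : Function.Injective P := by
    rw [← LinearMap.ker_eq_bot, LinearMap.ker_eq_bot']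
    intro z hz
    have h1 := aux_inj26 H z
    rw [← hP z, hz, norm_zero, mul_zero] at h1
    have h2 : ‖z‖ ≤ 0 := by
      by_contra h3
      push Not at h3
      nlinarith [mul_pos hh h3]
    exact norm_le_zero_iff.1 h2
  let e : A ≃ₗ[ℝ] A := LinearEquiv.ofInjectiveEndo P hinj
  have he : ∀ z, e z = z - S (S z) := fun z => rfl
  let B : Module.End ℝ A := LinearMap.id - (1 / 2 : ℝ) • (S + S')
  have hB : ∀ z, B z = z - (1 / 2 : ℝ) • (S z + S' z) := fun z => rfl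
  let Θ : Module.End ℝ A := B ∘ₗ e.symm.toLinearMap
  have hΘ : ∀ z, Θ (z - S (S z)) = z - (1 / 2 : ℝ) • (S z + S' z) := by
    intro z
    show B (e.symm (z - S (S z))) = _
    rw [← he z, LinearEquiv.symm_apply_apply, hB]
  refine ⟨Θ, hΘ, ?_, ?_⟩
  · intro x
    obtain ⟨z, rfl⟩ : ∃ z, z - S (S z) = x := ⟨e.symm x, by rw [← he, LinearEquiv.apply_symm_apply]⟩
    rw [hΘ]
    have h1 := aux_oneSub26 H z
    have h2 := aux_oneAdd26 H (z - S z)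
    have h3 : z - S z + S (z - S z) = z - S (S z) := by rw [map_sub]; abel
    rw [h3] at h2
    have h4 : z - (1 / 2 : ℝ) • (S z + S' z) = (z - S z) + (1 / 2 : ℝ) • (S z - S' z) := by
      module
    have h5 : ‖(1 / 2 : ℝ) • (S z - S' z)‖ = (1 / 2) * ‖S z - S' z‖ := by
      rw [norm_smul]; norm_num
    have h6 := H.diff z
    have h7 := norm_add_le (z - S z) ((1 / 2 : ℝ) • (S z - S' z))
    rw [← h4, h5] at h7
    have h8 : C₂ * h * ‖z‖ ≤ C₂ * ‖z - S z‖ := by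
      rw [mul_assoc]; exact mul_le_mul_of_nonneg_left h1 hC₂
    have h9 : C₂ * ‖z - S z‖ ≤ C₂ * (2 * ‖z - S (S z)‖) := mul_le_mul_of_nonneg_left h2 hC₂
    nlinarith
  · intro x
    obtain ⟨z, rfl⟩ : ∃ z, z - S (S z) = x := ⟨e.symm x, by rw [← he, LinearEquiv.apply_symm_apply]⟩
    have h0 : S (z - S (S z)) = S z - S (S (S z)) := by rw [map_sub]
    rw [h0, hΘ (S z), hΘ z]
    have h1 := aux_oneSub26 H z
    have h2 := aux_oneAdd26 H (z - S z)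
    have h3 : z - S z + S (z - S z) = z - S (S z) := by rw [map_sub]; abel
    rw [h3] at h2
    have h4 : S' (z - (1 / 2 : ℝ) • (S z + S' z)) - (S z - (1 / 2 : ℝ) • (S (S z) + S' (S z)))
        = -(S (z - S z) - S' (z - S z)) + (1 / 2 : ℝ) • (S' (S z) - S (S' z))
          - (1 / 2 : ℝ) • (S (S z - S' z) - S' (S z - S' z)) := by
      simp only [map_sub, map_smul, map_add]
      module
    rw [h4]
    have h5 := H.diff (z - S z)
    have h6 := H.comm z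
    have h7 := H.diff (S z - S' z)
    have h8 := H.diff z
    have h9 : ‖-(S (z - S z) - S' (z - S z)) + (1 / 2 : ℝ) • (S' (S z) - S (S' z))
          - (1 / 2 : ℝ) • (S (S z - S' z) - S' (S z - S' z))‖
        ≤ ‖S (z - S z) - S' (z - S z)‖ + (1 / 2) * ‖S' (S z) - S (S' z)‖
          + (1 / 2) * ‖S (S z - S' z) - S' (S z - S' z)‖ := by
      refine (norm_sub_le _ _).trans ?_
      refine add_le_add ((norm_add_le _ _).trans ?_) ?_
      · rw [norm_neg, norm_smul]; norm_num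
      · rw [norm_smul]; norm_num
    refine h9.trans ?_
    have hz : 0 ≤ ‖z‖ := norm_nonneg z
    set y := ‖z - S z‖ with hy
    have hy0 : 0 ≤ y := norm_nonneg _
    have h10 : ‖S (S z - S' z) - S' (S z - S' z)‖ ≤ C₂ ^ 2 * h * y := by
      refine h7.trans ?_
      have h11 : C₂ * h * ‖S z - S' z‖ ≤ C₂ * h * (C₂ * h * ‖z‖) :=
        mul_le_mul_of_nonneg_left h8 (by positivity)
      refine h11.trans ?_
      have h12 : C₂ ^ 2 * h * (h * ‖z‖) ≤ C₂ ^ 2 * h * y :=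
        mul_le_mul_of_nonneg_left h1 (by positivity)
      linarith [h12, show C₂ * h * (C₂ * h * ‖z‖) = C₂ ^ 2 * h * (h * ‖z‖) by ring]
    have h13 : ‖S' (S z) - S (S' z)‖ ≤ C₃ * h * y := by
      refine h6.trans ?_
      have h12 : C₃ * h * (h * ‖z‖) ≤ C₃ * h * y :=
        mul_le_mul_of_nonneg_left h1 (by positivity)
      linarith [h12, show C₃ * h ^ 2 * ‖z‖ = C₃ * h * (h * ‖z‖) by ring]
    have h14 : (2 * C₂ + C₃ + C₂ ^ 2) * h * y
        ≤ (2 * C₂ + C₃ + C₂ ^ 2) * h * (2 * ‖z - S (S z)‖) :=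
      mul_le_mul_of_nonneg_left h2 (by positivity)
    nlinarith

end Pool.Agent.Helper25.SE
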