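import Pool.Agent.Helper25.SE.Forest1
import Pool.Agent.Helper25.SE.Theta

/-!
# Project SE, block F2: `H_S(ξ)² ≤ c₂ ‖x‖₁ sup ‖X‖` (2.3)

`exists_rec` with `S'`, `r = ξ` and `g v = B₀ ξ v` gives `Z`, and `id3` gives
`H = ∑_v ⟨x v, Z v⟩ ≤ (∑ ‖x v‖) sup ‖Z v‖`, where `x = E S ξ`.  So it is enough that `‖Z v‖ ≤ c₂ M`.
Let `Θ` be as in `exists_theta` and `W v = Z v - Θ (X v)`.  At the roots
`‖W v‖ = ‖X v - Θ (X v)‖ ≤ (3 + C₂) M`.  Otherwise (`Θ (ξ v - S (S (ξ v))) = B₀ ξ v`)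
`W v = S' (Z (p v)) + B₀ ξ v - Θ (S (X (p v))) - B₀ ξ v = S' (W (p v)) + (S' Θ - Θ S) (X (p v))`, so
`‖W v‖ ≤ (1 - h) ‖W (p v)‖ + (2 C₂ + C₃ + C₂²) h M`.  By strong induction on `d v`
`‖W v‖ ≤ (3 + C₂ + 2 C₂ + C₃ + C₂²) M`.  So `‖Z v‖ ≤ ‖W v‖ + ‖Θ (X v)‖ ≤ (5 + 4 C₂ + C₃ + C₂²) M = c₂ M`.
If `Y` is empty both sides are `0`; otherwise `M ≥ 0`.

`H_nonneg`, `H_par`: from `Sop.bq_ge`, `bq_par`, the parallelogram law.
-/

namespace Pool.Agent.Helper25.SE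

open Pool.Agent.Helper25.NU
open scoped RealInnerProductSpace

variable {Y : Type} [Fintype Y] {A : Type} [NormedAddCommGroup A] [InnerProductSpace ℝ A]
  {C₂ C₃ h : ℝ} {S S' : Module.End ℝ A}

theorem Forest.H_nonneg (F : Forest Y) (H : Sop C₂ C₃ h S S') (ξ : Y → A) : 0 ≤ F.H S ξ := by
  unfold Forest.H
  refine Finset.sum_nonneg fun v _ => ?_
  split_ifs
  · positivity
  · have h1 := H.bq_ge (ξ v)
    have h2 : 0 ≤ h * ‖ξ v‖ ^ 2 := mul_nonneg H.h_pos.le (by positivity)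
    linarith

theorem Forest.H_par (F : Forest Y) (S : Module.End ℝ A) (ξ ξ' : Y → A) :
    F.H S (ξ + ξ') + F.H S (ξ - ξ') = 2 * F.H S ξ + 2 * F.H S ξ' := by
  unfold Forest.H
  rw [Finset.mul_sum, Finset.mul_sum, ← Finset.sum_add_distrib, ← Finset.sum_add_distrib]
  refine Finset.sum_congr rfl fun v _ => ?_
  rw [Pi.add_apply, Pi.sub_apply]
  split_ifs
  · have h1 := parallelogram_law_with_norm ℝ (ξ v) (ξ' v)
    linarith
  · exact bq_par S (ξ v) (ξ' v)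

theorem Forest.H_le [FiniteDimensional ℝ A] (F : Forest Y) (H : Sop C₂ C₃ h S S')
    (hC₂ : 0 ≤ C₂) (hC₃ : 0 ≤ C₃) {ξ X : Y → A} (hX : F.IsX S ξ X) {M : ℝ}
    (hM : ∀ v, ‖X v‖ ≤ M) : F.H S ξ ≤ c2 C₂ C₃ * (∑ v, ‖F.E S ξ v‖) * M := by
  obtain ⟨Θ, hΘ1, hΘ2, hΘ3⟩ := H.exists_theta hC₂ hC₃
  obtain ⟨Z, hZ0, hZ1⟩ := F.exists_rec ξ (fun v => ξ v - (1 / 2 : ℝ) • (S (ξ v) + S' (ξ v))) S'
  have hh := H.h_pos
  have hh1 := H.h_le
  set K : ℝ := 3 + C₂ + (2 * C₂ + C₃ + C₂ ^ 2) with hK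
  have key : ∀ n : ℕ, ∀ v, F.d v ≤ n → ‖Z v - Θ (X v)‖ ≤ K * M := by
    intro n
    induction n with
    | zero =>
      intro v hv
      have hM0 : 0 ≤ M := (norm_nonneg _).trans (hM v)
      have hv0 : F.d v = 0 := by omega
      rw [hZ0 v hv0, ← hX.1 v hv0]
      have h1 := norm_sub_le (X v) (Θ (X v))
      have h2 := hΘ2 (X v)
      have h3 := hM v
      have h4 : (2 + C₂) * ‖X v‖ ≤ (2 + C₂) * M := mul_le_mul_of_nonneg_left h3 (by linarith)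
      have h5 : 0 ≤ (2 * C₂ + C₃ + C₂ ^ 2) * M := by positivity
      rw [hK]
      nlinarith
    | succ n ih =>
      intro v hv
      have hM0 : 0 ≤ M := (norm_nonneg _).trans (hM v)
      by_cases hv0 : F.d v = 0
      · exact ih v (by omega)
      · have hlt := F.lt v hv0
        have h0 := ih (F.p v) (by omega)
        have e : Z v - Θ (X v) = S' (Z (F.p v) - Θ (X (F.p v))) +
            (S' (Θ (X (F.p v))) - Θ (S (X (F.p v)))) := by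
          rw [hZ1 v hv0, hX.2 v hv0, map_add, hΘ1, map_sub]
          abel
        rw [e]
        refine (norm_add_le _ _).trans ?_
        have h1 := H.norm_le' (Z (F.p v) - Θ (X (F.p v)))
        have h2 := hΘ3 (X (F.p v))
        have h3 : (1 - h) * ‖Z (F.p v) - Θ (X (F.p v))‖ ≤ (1 - h) * (K * M) :=
          mul_le_mul_of_nonneg_left h0 (by linarith)
        have h4 : (2 * C₂ + C₃ + C₂ ^ 2) * h * ‖X (F.p v)‖ ≤ (2 * C₂ + C₃ + C₂ ^ 2) * h * M :=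
          mul_le_mul_of_nonneg_left (hM _) (by positivity)
        have h5 : (2 * C₂ + C₃ + C₂ ^ 2) * (h * M) ≤ K * (h * M) :=
          mul_le_mul_of_nonneg_right (by rw [hK]; linarith) (by positivity)
        nlinarith
  have hZ : ∀ v, ‖Z v‖ ≤ c2 C₂ C₃ * M := by
    intro v
    have hM0 : 0 ≤ M := (norm_nonneg _).trans (hM v)
    have h1 := key (F.d v) v le_rfl
    have h2 := hΘ2 (X v)
    have h4 : (2 + C₂) * ‖X v‖ ≤ (2 + C₂) * M := mul_le_mul_of_nonneg_left (hM v) (by linarith)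
    have h5 : ‖Z v‖ ≤ ‖Z v - Θ (X v)‖ + ‖Θ (X v)‖ := by
      have := norm_add_le (Z v - Θ (X v)) (Θ (X v))
      rwa [sub_add_cancel] at this
    unfold c2
    rw [hK] at h1
    linarith
  rw [← F.id3 H.adj ξ Z hZ0 hZ1, Finset.mul_sum, Finset.sum_mul]
  refine Finset.sum_le_sum fun v _ => ?_
  refine (real_inner_le_norm _ _).trans ?_
  have h1 : ‖F.E S ξ v‖ * ‖Z v‖ ≤ ‖F.E S ξ v‖ * (c2 C₂ C₃ * M) :=
    mul_le_mul_of_nonneg_left (hZ v) (norm_nonneg _)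
  linarith

end Pool.Agent.Helper25.SE
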