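import Pool.Agent.Helper25.SE.ChartX
import Pool.Agent.Helper25.SE.ChartLoc

/-!
# Project SE, block G6: the kernel is `S ^ dist` (3.4)

Let `G` be connected without cycles of length at most `2 D + 2`, `S ^ D = 0`, `D > 0`.
`Phi_single`: apply `exists_chart_of_sep` with `C = {y}`, `K = D`: `Chart G D d p` with `d z = dist(y, z)`.
Let `ξ = Pi.single y a` (`ρ = 0`), `X z = S^{d z} a`.  Then `X y = a`; for `1 ≤ d z ≤ D` `X z = S (X (p z))`
(`par`); for `d z > D` `X z = 0`.  By `chart_X` (with `ρ = 0`) `Phi (ξ - ∑ ...) = X`, and the sum vanishes, since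
`ξ z' ≠ 0` only for `z' = y`, `d z' = 0`.  (`0 + D` and `D` have to be identified.)
`FS_le_sn1`: `x = ∑_y Pi.single y (x y)`, so `‖Phi x z‖ ≤ ∑_y ‖S^{dist(y,z)} (x y)‖ ≤ ∑_y ‖x y‖`.
-/

namespace Pool.Agent.Helper25.SE

open Pool.Agent.Helper25.NU

open Classical in
theorem Phi_single {Ω : Type} [Fintype Ω] {A : Type} [NormedAddCommGroup A]
    [InnerProductSpace ℝ A] {G : SimpleGraph Ω} {S : Module.End ℝ A} {D : ℕ} (hG : G.Connected)
    (hg : ∀ (v : Ω) (c : G.Walk v v), c.IsCycle → 2 * D + 2 < c.length) (hS : S ^ D = 0)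
    (hD : 0 < D) (y z : Ω) (a : A) :
    Phi G S D (Pi.single y a) z = (S ^ G.dist y z) a := by
  sorry

theorem FS_le_sn1 {Ω : Type} [Fintype Ω] {A : Type} [NormedAddCommGroup A]
    [InnerProductSpace ℝ A] {G : SimpleGraph Ω} {S : Module.End ℝ A} {D : ℕ} (hG : G.Connected)
    (hg : ∀ (v : Ω) (c : G.Walk v v), c.IsCycle → 2 * D + 2 < c.length) (hS : S ^ D = 0)
    (hD : 0 < D) (hn : ∀ x, ‖S x‖ ≤ ‖x‖) (x : Ω → A) : FS G S D x ≤ sn1 Ω A x := by
  sorry

end Pool.Agent.Helper25.SE
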