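import Pool.Agent.Helper25.SE.Defs

/-!
# Project SE, block O1: the class of operators

* `Sop.symm`: `⟨S' x, y⟩ = ⟨x, S y⟩`, `S S' - S' S` is minus the commutator, `⟨S' x, x⟩ = ⟨S x, x⟩`.
* `Sop.smul`: for `0 ≤ s ≤ 1` put `h' = 1 - s (1 - h) ≥ h`; `s ‖S x‖ ≤ s (1 - h) ‖x‖ = (1 - h') ‖x‖`,
  `s C₂ h ≤ C₂ h'`, `s² C₃ h² ≤ C₃ h'²`, `⟨s S x, x⟩ ≥ -s/2 ‖x‖²`.
* `bq_symm`: `⟨S' x, x⟩ = ⟨S x, x⟩`.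
* `Sop.bq_ge`: `⟨S x, x⟩ ≤ ‖S x‖ ‖x‖ ≤ (1 - h) ‖x‖²`.
* `bq_par`: the parallelogram law for `bq S` (bilinearity).
* `Sop.bil` (this is (2.2)).  Let `B₀ = 1 - (S + S')/2`, a symmetric operator with `⟨B₀ x, x⟩ = bq S x`, so
  `⟨B₀ a, b⟩² ≤ bq S a · bq S b` (Cauchy-Schwarz for a non-negative form: discriminant), and
  `Q = (S - S')/2`, `‖Q x‖ ≤ (C₂ h/2) ‖x‖`, `1 - S = B₀ - Q`.  As `h ‖a‖ ‖b‖ ≤ √(bq a) √(bq b)`,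
  `|⟨(1 - S) a, b⟩| ≤ (1 + C₂/2) √(bq a) √(bq b)`.
  `‖B₀ a‖² ≤ 2 bq a`: `‖B₀ a‖² = ⟨B₀ a, B₀ a⟩ ≤ √(bq a) √(bq (B₀ a))` and `bq y ≤ 2 ‖y‖²`.
  `‖Q a‖ ≤ (C₂/2) h ‖a‖ ≤ (C₂/2) √(bq a)` as `h ≤ √h`.  So `‖(1 - S) a‖ ≤ (2 + C₂) √(bq a)`, the same
  for `S'`.  `1 - S² = 2 (1 - S) - (1 - S)²` and `⟨(1 - S)² a, b⟩ = ⟨(1 - S) a, (1 - S') b⟩`.
  Together `|⟨(1 - S²) a, b⟩| ≤ (2 + C₂ + (2 + C₂)²) √(bq a) √(bq b)`.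
* `Sop.surj`: `x ↦ x - S (S x)` is injective (`‖S (S x)‖ ≤ (1 - h) ‖x‖ < ‖x‖` for `x ≠ 0`), so surjective as
  `A` is finite-dimensional.
-/

namespace Pool.Agent.Helper25.SE

open Pool.Agent.Helper25.NU
open scoped RealInnerProductSpace

variable {A : Type} [NormedAddCommGroup A] [InnerProductSpace ℝ A] {C₂ C₃ h : ℝ}
  {S S' : Module.End ℝ A}

theorem Sop.symm (H : Sop C₂ C₃ h S S') : Sop C₂ C₃ h S' S := by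
  sorry

theorem Sop.smul (H : Sop C₂ C₃ h S S') (hC₂ : 0 ≤ C₂) (hC₃ : 0 ≤ C₃) {s : ℝ} (h0 : 0 ≤ s)
    (h1 : s ≤ 1) : Sop C₂ C₃ (1 - s * (1 - h)) (s • S) (s • S') := by
  sorry

theorem Sop.bq_symm (H : Sop C₂ C₃ h S S') (x : A) : bq S' x = bq S x := by
  sorry

theorem Sop.bq_ge (H : Sop C₂ C₃ h S S') (x : A) : h * ‖x‖ ^ 2 ≤ bq S x := by
  sorry

theorem Sop.norm_le_self (H : Sop C₂ C₃ h S S') (x : A) : ‖S x‖ ≤ ‖x‖ := by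
  sorry

theorem bq_par (S : Module.End ℝ A) (x y : A) :
    bq S (x + y) + bq S (x - y) = 2 * bq S x + 2 * bq S y := by
  sorry

theorem Sop.bil (H : Sop C₂ C₃ h S S') (hC₂ : 0 ≤ C₂) (a b : A) :
    |⟪a - S (S a), b⟫| ≤ c1 C₂ * (√(bq S a) * √(bq S b)) := by
  sorry

theorem Sop.surj [FiniteDimensional ℝ A] (H : Sop C₂ C₃ h S S') (y : A) :
    ∃ x, x - S (S x) = y := by
  sorry

end Pool.Agent.Helper25.SE
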