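import Pool.Agent.Helper25.SE.Defs

/-!
# Project SE, block G5a: uniqueness of short paths

If all cycles of `G` are longer than `g`, two paths `P`, `P'` from `u` to `v` of total length at most `g` are equal.

Proof.  Let `G'` be the subgraph (`SimpleGraph.fromEdgeSet`) with the edges of `P` and `P'` (transfer both paths to
`G'`: `Walk.transfer`).  If `G'` is acyclic the paths are equal (`IsAcyclic.path_unique`).
Otherwise `G'` has a cycle; its edges are distinct (`IsCycle`, `edges_nodup`) and lie among the at most
`P.length + P'.length ≤ g` edges, so its length is at most `g`; it is also a cycle of `G`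
(`Walk.mapLe`/`transfer`, `IsCycle.mapLe`, length unchanged), a contradiction.
(Any other proof is fine.)
-/

namespace Pool.Agent.Helper25.SE

theorem path_unique {Ω : Type} [Fintype Ω] {G : SimpleGraph Ω} {g : ℕ}
    (hg : ∀ (v : Ω) (c : G.Walk v v), c.IsCycle → g < c.length) {u v : Ω} (P P' : G.Walk u v)
    (hP : P.IsPath) (hP' : P'.IsPath) (h : P.length + P'.length ≤ g) : P = P' := by
  by_contra hne
  obtain ⟨w, -, -, c, hc, hlen⟩ := hP.exists_isCycle_length_le_add_of_ne hP' hne
  have h1 := hg w c hc
  omega

end Pool.Agent.Helper25.SE
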