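import Pool.Agent.Helper25.SE.Defs

/-!
# Project SE, block G1: the operator `Φ_S` inverts the local operator

Let `S ^ D = 0`.  `1 - Lop G S = pt S * B` with `B X (z) = ∑_{z' ~ z} X(z') - (deg z - 1) S X(z)`, and `pt S` commutes
with `B`, so `(1 - Lop G S) ^ D = (pt S) ^ D * B ^ D = 0` (`Commute.mul_pow`, `(pt S)^D = pt (S^D)`).
Hence `Lop * ∑_{k < D} (1 - Lop)^k = 1 = (∑ ...) * Lop` (`geom_sum`, `mul_neg_geom_sum`, `neg_mul_geom_sum`).
-/

namespace Pool.Agent.Helper25.SE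

open Pool.Agent.Helper25.NU
open scoped RealInnerProductSpace

variable {Ω : Type} [Fintype Ω] {A : Type} [NormedAddCommGroup A] [InnerProductSpace ℝ A]
  {G : SimpleGraph Ω} {S : Module.End ℝ A} {D : ℕ}

theorem one_sub_Lop_pow (hS : S ^ D = 0) : (1 - Lop G S) ^ D = 0 := by
  sorry

theorem Lop_mul_sum (hS : S ^ D = 0) :
    Lop G S * ∑ k ∈ Finset.range D, (1 - Lop G S) ^ k = 1 := by
  sorry

theorem sum_mul_Lop (hS : S ^ D = 0) :
    (∑ k ∈ Finset.range D, (1 - Lop G S) ^ k) * Lop G S = 1 := by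
  sorry

theorem Lop_Phi (hS : S ^ D = 0) (x : Ω → A) :
    Lop G S (Phi G S D x) = fun z => x z - S (S (x z)) := by
  sorry

theorem Phi_eq (hS : S ^ D = 0) {x X : Ω → A}
    (h : Lop G S X = fun z => x z - S (S (x z))) : Phi G S D x = X := by
  sorry

end Pool.Agent.Helper25.SE
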